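import Mathlib

/-! Number theory behind the word metric of `BS(1,m)`: expansions in base `m` with integer digits. -/

namespace Pool.Agent.R649.BS

open Finset

/-- The centres `c_n` of the potential. -/
def cen (m : ℤ) : ℕ → ℤ
  | 0 => 0
  | n + 1 => if Even (cen m n) then m * cen m n + (m - 1) else m * cen m n

theorem cen_nonneg {m : ℤ} (hm : 2 ≤ m) (n : ℕ) : 0 ≤ cen m n := by
  induction n with
  | zero => simp [cen]
  | succ n ih =>
    rw [cen]
    have := mul_nonneg (by omega : (0 : ℤ) ≤ m) ih
    split_ifs <;> omega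

theorem cen_succ_ge {m : ℤ} (hm : 2 ≤ m) (n : ℕ) : m * cen m n ≤ cen m (n + 1) := by
  rw [cen]
  split_ifs <;> omega

theorem cen_lt {m : ℤ} (hm : 2 ≤ m) (n : ℕ) : cen m n + 1 ≤ m ^ n := by
  induction n with
  | zero => simp [cen]
  | succ n ih =>
    rw [cen, pow_succ]
    have : m * (cen m n + 1) ≤ m * m ^ n := mul_le_mul_of_nonneg_left ih (by omega)
    rw [mul_comm (m ^ n) m]
    split_ifs <;> nlinarith

theorem cen_one (m : ℤ) : cen m 1 = m - 1 := by simp [cen]

theorem cen_two_even (m : ℤ) : Even (cen m 2) := by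
  rw [show (2 : ℕ) = 1 + 1 from rfl, cen, cen_one]
  split_ifs with h
  · have : m * (m - 1) + (m - 1) = (m - 1) * (m + 1) := by ring
    rw [this]
    exact h.mul_right _
  · rw [Int.not_even_iff_odd] at h
    have : Even m := by
      rcases Int.even_or_odd m with h2 | h2
      · exact h2
      · exfalso
        have h3 : Even (m - 1) := h2.sub_odd odd_one
        exact (Int.not_even_iff_odd.2 h) h3
    exact this.mul_right _

theorem cen_ge {m : ℤ} (hm : 2 ≤ m) (n : ℕ) : (m + 3) * n ≤ cen m n + 10 := by
  have h1 := cen_one m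
  have h2 : m * (m - 1) ≤ cen m 2 := by
    have := cen_succ_ge hm 1
    rw [h1] at this
    exact this
  have h3 : m * cen m 2 + (m - 1) = cen m 3 := by
    have : cen m (2 + 1) = if Even (cen m 2) then m * cen m 2 + (m - 1) else m * cen m 2 := by
      rw [cen]
    rw [if_pos (cen_two_even m)] at this
    exact this.symm
  have h3' : m * (m * (m - 1)) + (m - 1) ≤ cen m 3 := by
    rw [← h3]
    have := mul_le_mul_of_nonneg_left h2 (by omega : (0 : ℤ) ≤ m)
    omega
  have h3'' : 3 * m - 1 ≤ cen m 3 := by
    refine le_trans ?_ h3'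
    have e : m * (m * (m - 1)) + (m - 1) - (3 * m - 1) = m * ((m - 2) * (m + 1)) := by ring
    have : 0 ≤ m * ((m - 2) * (m + 1)) :=
      mul_nonneg (by omega) (mul_nonneg (by omega) (by omega))
    linarith
  have h4 : (m + 3) * 4 ≤ cen m 4 + 10 := by
    have := cen_succ_ge hm 3
    have h5 : m * (3 * m - 1) ≤ m * cen m 3 := mul_le_mul_of_nonneg_left h3'' (by omega)
    have e : m * (3 * m - 1) - (4 * m + 2) = (3 * m + 1) * (m - 2) := by ring
    have : 0 ≤ (3 * m + 1) * (m - 2) := mul_nonneg (by omega) (by omega)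
    have e3 : cen m (3 + 1) = cen m 4 := rfl
    rw [e3] at *
    linarith
  rcases Nat.lt_or_ge n 4 with hn | hn
  · interval_cases n
    · simp [cen]
    · rw [h1]; push_cast; linarith
    · push_cast
      have e : m * (m - 1) - (2 * m - 4) = (m - 1) * (m - 2) + 2 := by ring
      have : 0 ≤ (m - 1) * (m - 2) := mul_nonneg (by omega) (by omega)
      linarith
    · push_cast
      linarith
  · induction n, hn using Nat.le_induction with
    | base => exact_mod_cast h4
    | succ n hn ih =>
      have h5 := cen_succ_ge hm n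
      have h6 : m * ((m + 3) * n - 10) ≤ m * cen m n :=
        mul_le_mul_of_nonneg_left (by linarith) (by omega)
      have hn4 : (4 : ℤ) ≤ n := by exact_mod_cast hn
      push_cast
      have h7 : (m - 1) * (m + 3) * 4 ≤ (m - 1) * (m + 3) * n :=
        mul_le_mul_of_nonneg_left hn4 (mul_nonneg (by omega) (by omega))
      nlinarith

theorem cen_key {m : ℤ} (hm : 2 ≤ m) (n : ℕ) (e z : ℤ) :
    (m - 1) + |2 * z - cen m n| ≤ 2 * |e| + |2 * (e + m * z) - cen m (n + 1)| := by
  obtain ⟨y, hy⟩ : ∃ y, y = 2 * z - cen m n := ⟨_, rfl⟩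
  rw [← hy]
  have habs : ∀ u v : ℤ, |v| - 2 * |u| ≤ |2 * u + v| := by
    intro u v
    have h1 : |v| = |(2 * u + v) - 2 * u| := by congr 1; ring
    have h2 := abs_sub (2 * u + v) (2 * u)
    rw [← h1, abs_mul, abs_two] at h2
    linarith
  rw [cen]
  split_ifs with h
  · have e1 : 2 * (e + m * z) - (m * cen m n + (m - 1)) = 2 * e + (m * y - (m - 1)) := by
      rw [hy]; ring
    rw [e1]
    have h1 := habs e (m * y - (m - 1))
    have h2 : (m - 1) + |y| ≤ |m * y - (m - 1)| := by
      have hye : Even y := by
        rw [hy]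
        exact (even_two_mul z).sub h
      rcases le_or_gt y 0 with h0 | h0
      · rw [abs_of_nonpos h0, abs_of_nonpos (by nlinarith)]
        nlinarith
      · have h2y : 2 ≤ y := by
          obtain ⟨w, hw⟩ := hye
          omega
        rw [abs_of_pos h0]
        refine le_trans ?_ (le_abs_self _)
        nlinarith
    linarith
  · have e1 : 2 * (e + m * z) - m * cen m n = 2 * e + m * y := by
      rw [hy]; ring
    rw [e1]
    have h1 := habs e (m * y)
    have h2 : (m - 1) + |y| ≤ |m * y| := by
      have hy0 : 1 ≤ |y| := by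
        apply Int.one_le_abs
        intro h0
        apply h
        rw [hy] at h0
        exact ⟨z, by omega⟩
      rw [abs_mul, abs_of_nonneg (by omega : (0 : ℤ) ≤ m)]
      nlinarith
    linarith

/-- The value of the bound. -/
def bd (m : ℤ) (L n : ℕ) : ℤ := if n ≤ L then (m - 1) * n else (m - 1) * L + cen m (n - L)

theorem pot {m : ℤ} (hm : 2 ≤ m) (L : ℕ) : ∀ (n : ℕ) (f : ℕ → ℤ),
    bd m L n ≤ 2 * ∑ i ∈ range (L + 1), |f i| +
      |2 * ∑ i ∈ range (L + 1), f i * m ^ i - cen m n| := by
  induction L with
  | zero =>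
    intro n f
    rw [sum_range_one, sum_range_one, pow_zero, mul_one]
    unfold bd
    split_ifs with h
    · obtain rfl : n = 0 := by omega
      simp only [Nat.cast_zero, mul_zero]
      positivity
    · rw [Nat.sub_zero]
      simp only [Nat.cast_zero, mul_zero, zero_add]
      have h1 := abs_sub (2 * f 0) (2 * f 0 - cen m n)
      rw [sub_sub_cancel, abs_mul, abs_two] at h1
      have h2 := le_abs_self (cen m n)
      linarith
  | succ L ih =>
    intro n f
    cases n with
    | zero =>
      unfold bd
      simp only [Nat.zero_le, if_true, Nat.cast_zero, mul_zero]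
      have : 0 ≤ ∑ i ∈ range (L + 1 + 1), |f i| := sum_nonneg fun i _ => abs_nonneg _
      positivity
    | succ n =>
      have h1 := ih n (fun i => f (i + 1))
      have h2 := cen_key hm n (f 0) (∑ i ∈ range (L + 1), f (i + 1) * m ^ i)
      have e1 : ∑ i ∈ range (L + 1 + 1), f i * m ^ i =
          f 0 + m * ∑ i ∈ range (L + 1), f (i + 1) * m ^ i := by
        rw [sum_range_succ', mul_sum]
        rw [pow_zero, mul_one, add_comm]
        congr 1
        apply sum_congr rfl
        intro i _
        ring
      have e2 : ∑ i ∈ range (L + 1 + 1), |f i| = |f 0| + ∑ i ∈ range (L + 1), |f (i + 1)| := by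
        rw [sum_range_succ', add_comm]
      rw [e1, e2]
      have h3 : bd m (L + 1) (n + 1) = bd m L n + (m - 1) := by
        unfold bd
        have e3 : n + 1 - (L + 1) = n - L := by omega
        rw [e3]
        split_ifs with h4 h5 h5
        · push_cast; ring
        · omega
        · omega
        · push_cast; ring
      rw [h3]
      linarith

/-- Divisibility by powers of `m` can be used to shorten an expansion. -/
theorem shorten {m : ℤ} (hm : 2 ≤ m) (j : ℕ) : ∀ (L : ℕ) (Z : ℤ) (f : ℕ → ℤ), j ≤ L →
    m ^ j * Z = ∑ i ∈ range (L + 1), f i * m ^ i →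
    ∃ f' : ℕ → ℤ, Z = ∑ i ∈ range (L - j + 1), f' i * m ^ i ∧
      ∑ i ∈ range (L - j + 1), |f' i| ≤ ∑ i ∈ range (L + 1), |f i| := by
  induction j with
  | zero =>
    intro L Z f _ h
    exact ⟨f, by simpa using h, by simp⟩
  | succ j ih =>
    intro L Z f hj h
    obtain ⟨L, rfl⟩ : ∃ L', L = L' + 1 := ⟨L - 1, by omega⟩
    have e1 : ∑ i ∈ range (L + 1 + 1), f i * m ^ i =
        f 0 + m * ∑ i ∈ range (L + 1), f (i + 1) * m ^ i := by
      rw [sum_range_succ', mul_sum]
      rw [pow_zero, mul_one, add_comm]
      congr 1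
      apply sum_congr rfl
      intro i _
      ring
    rw [e1] at h
    have hd : m ∣ f 0 := by
      have : f 0 = m * (m ^ j * Z - ∑ i ∈ range (L + 1), f (i + 1) * m ^ i) := by
        rw [mul_sub, ← mul_assoc, ← pow_succ', h]; ring
      exact ⟨_, this⟩
    obtain ⟨u, hu⟩ := hd
    have hm0 : m ≠ 0 := by omega
    have h2 : m ^ j * Z = ∑ i ∈ range (L + 1), (f (i + 1) + if i = 0 then u else 0) * m ^ i := by
      apply mul_left_cancel₀ hm0
      rw [← mul_assoc, ← pow_succ', h, hu]
      have : ∑ i ∈ range (L + 1), (f (i + 1) + if i = 0 then u else 0) * m ^ i =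
          ∑ i ∈ range (L + 1), f (i + 1) * m ^ i + u := by
        simp_rw [add_mul]
        rw [sum_add_distrib]
        congr 1
        simp
      rw [this]
      ring
    obtain ⟨f', hf1, hf2⟩ := ih L Z _ (by omega) h2
    have e3 : L + 1 - (j + 1) = L - j := by omega
    rw [e3]
    refine ⟨f', hf1, hf2.trans ?_⟩
    rw [sum_range_succ' (fun i => |f i|) (L + 1)]
    calc ∑ i ∈ range (L + 1), |f (i + 1) + if i = 0 then u else 0|
        ≤ ∑ i ∈ range (L + 1), (|f (i + 1)| + |if i = 0 then u else 0|) :=
          sum_le_sum fun i _ => abs_add_le _ _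
      _ = ∑ i ∈ range (L + 1), |f (i + 1)| + |u| := by
          rw [sum_add_distrib]
          congr 1
          rw [sum_eq_single 0]
          · simp
          · intro b _ hb; simp [hb]
          · intro h0; simp at h0
      _ ≤ _ := by
          have : |u| ≤ |f 0| := by
            rw [hu, abs_mul, abs_of_nonneg (by omega : (0 : ℤ) ≤ m)]
            nlinarith [abs_nonneg u]
          linarith

theorem digits {m : ℤ} (hm : 2 ≤ m) (L : ℕ) : ∀ Z : ℤ, 0 ≤ Z → Z < m ^ L →
    ∃ f : ℕ → ℤ, (∀ i, 0 ≤ f i ∧ f i ≤ m - 1) ∧ Z = ∑ i ∈ range L, f i * m ^ i := by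
  induction L with
  | zero =>
    intro Z h0 h1
    refine ⟨fun _ => 0, fun i => ⟨le_rfl, ?_⟩, ?_⟩
    · show (0 : ℤ) ≤ m - 1
      omega
    · simp at h1 ⊢
      omega
  | succ L ih =>
    intro Z h0 h1
    have hm0 : (0 : ℤ) < m := by omega
    obtain ⟨f, hf1, hf2⟩ := ih (Z / m) (Int.ediv_nonneg h0 hm0.le) (by
      rw [Int.ediv_lt_iff_lt_mul hm0, ← pow_succ]; exact h1)
    refine ⟨fun i => if i = 0 then Z % m else f (i - 1), ?_, ?_⟩
    · intro i
      by_cases hi : i = 0
      · simp only [hi, if_true]
        have := Int.emod_nonneg Z hm0.ne'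
        have := Int.emod_lt_of_pos Z hm0
        omega
      · simp only [hi, if_false]
        exact hf1 _
    · rw [sum_range_succ']
      simp only [Nat.add_sub_cancel, Nat.succ_ne_zero, if_false, if_true, pow_zero, mul_one]
      have : ∑ i ∈ range L, f i * m ^ (i + 1) = m * (Z / m) := by
        rw [hf2, mul_sum]
        apply sum_congr rfl
        intro i _
        ring
      rw [this]
      exact (Int.mul_ediv_add_emod Z m).symm

/-- Every integer `Z` with `|Z| ≤ m ^ L` has an expansion of small weight. -/
theorem small_weight {m : ℤ} (hm : 2 ≤ m) (L : ℕ) (Z : ℤ) (hZ : |Z| ≤ m ^ L) :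
    ∃ f : ℕ → ℤ, Z = ∑ i ∈ range (L + 1), f i * m ^ i ∧
      2 * ∑ i ∈ range (L + 1), |f i| ≤ (m - 1) * L + 2 := by
  have hL0 : (0 : ℤ) ≤ (m - 1) * L := mul_nonneg (by omega) (Int.natCast_nonneg _)
  have pos : ∀ Z : ℤ, 0 ≤ Z → Z ≤ m ^ L → ∃ f : ℕ → ℤ,
      Z = ∑ i ∈ range (L + 1), f i * m ^ i ∧
      2 * ∑ i ∈ range (L + 1), |f i| ≤ (m - 1) * L + 2 := by
    intro Z h0 h1
    rcases eq_or_lt_of_le h1 with h1 | h1
    · refine ⟨fun i => if i = L then 1 else 0, ?_, ?_⟩
      · simp [h1]
      · have : ∑ i ∈ range (L + 1), |(if i = L then 1 else 0 : ℤ)| = 1 := by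
          rw [sum_eq_single L]
          · simp
          · intro b _ hb; simp [hb]
          · intro h; simp at h
        rw [this]
        linarith
    · obtain ⟨f, hf1, hf2⟩ := digits hm L Z h0 h1
      have hm0 : (0 : ℤ) ≤ m := by omega
      rcases le_or_gt (2 * ∑ i ∈ range L, f i) ((m - 1) * L + 2) with hs | hs
      · refine ⟨fun i => if i < L then f i else 0, ?_, ?_⟩
        · rw [sum_range_succ]
          simp only [lt_irrefl, if_false, zero_mul, add_zero]
          rw [hf2]
          apply sum_congr rfl
          intro i hi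
          rw [if_pos (mem_range.1 hi)]
        · rw [sum_range_succ]
          simp only [lt_irrefl, if_false, abs_zero, add_zero]
          have : ∑ i ∈ range L, |if i < L then f i else 0| = ∑ i ∈ range L, f i := by
            apply sum_congr rfl
            intro i hi
            rw [if_pos (mem_range.1 hi), abs_of_nonneg (hf1 i).1]
          rw [this]
          exact hs
      · have hgeom : ∑ i ∈ range L, (m - 1) * m ^ i = m ^ L - 1 := by
          rw [← mul_sum, mul_geom_sum]
        cases L with
        | zero => simp at hs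
        | succ L =>
          refine ⟨fun i => if i < L + 1 then (f i - (m - 1)) - (if i = 0 then 1 else 0) else 1,
            ?_, ?_⟩
          · rw [sum_range_succ]
            simp only [lt_irrefl, if_false, one_mul]
            have : ∑ i ∈ range (L + 1),
                (if i < L + 1 then (f i - (m - 1)) - (if i = 0 then 1 else 0) else 1) * m ^ i =
                ∑ i ∈ range (L + 1), (f i * m ^ i - (m - 1) * m ^ i -
                  (if i = 0 then 1 else 0) * m ^ i) := by
              apply sum_congr rfl
              intro i hi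
              rw [if_pos (mem_range.1 hi)]
              ring
            rw [this, sum_sub_distrib, sum_sub_distrib, ← hf2, hgeom]
            simp
            ring
          · rw [sum_range_succ]
            simp only [lt_irrefl, if_false, abs_one]
            have : ∑ i ∈ range (L + 1),
                |if i < L + 1 then (f i - (m - 1)) - (if i = 0 then 1 else 0) else 1| =
                ∑ i ∈ range (L + 1), ((m - 1) - f i + (if i = 0 then 1 else 0)) := by
              apply sum_congr rfl
              intro i hi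
              rw [if_pos (mem_range.1 hi)]
              have := (hf1 i).2
              rw [abs_of_nonpos]
              · ring
              · split_ifs <;> omega
            rw [this, sum_add_distrib, sum_sub_distrib]
            simp only [sum_const, card_range, nsmul_eq_mul, sum_ite_eq', mem_range]
            simp only [Nat.zero_lt_succ, if_true]
            push_cast at hs ⊢
            nlinarith
  rcases le_total 0 Z with h | h
  · rw [abs_of_nonneg h] at hZ
    exact pos Z h hZ
  · rw [abs_of_nonpos h] at hZ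
    obtain ⟨f, h1, h2⟩ := pos (-Z) (by omega) hZ
    refine ⟨fun i => -f i, ?_, ?_⟩
    · rw [← neg_neg Z, h1, ← sum_neg_distrib]
      apply sum_congr rfl
      intro i _
      ring
    · simpa using h2

/-- The element used below. -/
theorem exists_heavy {m : ℤ} (hm : 2 ≤ m) (n : ℕ) :
    ∃ Z : ℤ, ¬ m ∣ Z ∧ |2 * Z - cen m n| ≤ 2 ∧ 0 ≤ Z ∧ Z ≤ m ^ n := by
  have h1 := cen_nonneg hm n
  have h2 := cen_lt hm n
  obtain ⟨z, hz⟩ : ∃ z, z = cen m n / 2 := ⟨_, rfl⟩
  by_cases h : m ∣ z
  · refine ⟨z + 1, ?_, ?_, by omega, by omega⟩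
    · intro h'
      have : m ∣ 1 := by
        have := dvd_sub h' h
        simpa using this
      have := Int.le_of_dvd one_pos this
      omega
    · rw [abs_le]
      omega
  · refine ⟨z, h, ?_, by omega, by omega⟩
    rw [abs_le]
    omega

end Pool.Agent.R649.BS
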