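import Mathlib

/-! Basic facts about word length, seen as distance to `1` in the Cayley graph
`SimpleGraph.mulCayley S`. -/

namespace Pool.Agent.R649

open SimpleGraph

variable {G : Type*} [Group G] {S : Set G}

theorem cadj {a b : G} : (mulCayley S).Adj a b ↔ a ≠ b ∧ (a⁻¹ * b ∈ S ∨ (a⁻¹ * b)⁻¹ ∈ S) := by
  rw [mulCayley_adj']
  refine and_congr_right fun _ => ?_
  constructor
  · rintro ⟨g, hg, h | h⟩
    · left; rw [← h]; simpa using hg
    · right; rw [h]; simpa using hg
  · rintro (h | h)
    · exact ⟨_, h, Or.inl (by group)⟩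
    · exact ⟨_, h, Or.inr (by group)⟩

theorem cadj_mul {a s : G} (hs : s ∈ S ∨ s⁻¹ ∈ S) (h1 : s ≠ 1) :
    (mulCayley S).Adj a (a * s) := by
  rw [cadj]
  refine ⟨fun h => h1 (by simpa using h.symm), ?_⟩
  simpa using hs

theorem cadj_left (c : G) {a b : G} :
    (mulCayley S).Adj (c * a) (c * b) ↔ (mulCayley S).Adj a b := by
  rw [cadj, cadj]
  have e : (c * a)⁻¹ * (c * b) = a⁻¹ * b := by group
  rw [e]
  simp

/-- Left translation as an automorphism of the Cayley graph. -/
def leftIso (S : Set G) (c : G) : mulCayley S ≃g mulCayley S where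
  toEquiv := Equiv.mulLeft c
  map_rel_iff' := by
    intro a b
    exact cadj_left c

theorem dist_left (c a b : G) :
    (mulCayley S).dist (c * a) (c * b) = (mulCayley S).dist a b := by
  have key : ∀ c a b : G, (mulCayley S).Reachable a b →
      (mulCayley S).dist (c * a) (c * b) ≤ (mulCayley S).dist a b := by
    intro c a b h
    obtain ⟨p, hp⟩ := h.exists_walk_length_eq_dist
    rw [← hp]
    have := dist_le (p.map (leftIso S c).toHom)
    rw [Walk.length_map] at this
    exact this
  by_cases h : (mulCayley S).Reachable a b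
  · refine le_antisymm (key c a b h) ?_
    have h' : (mulCayley S).Reachable (c * a) (c * b) := h.map (leftIso S c).toHom
    have := key c⁻¹ _ _ h'
    simpa using this
  · have h' : ¬ (mulCayley S).Reachable (c * a) (c * b) := by
      intro h'
      have := h'.map (leftIso S c⁻¹).toHom
      apply h
      have e1 : (leftIso S c⁻¹).toHom (c * a) = a := by
        show c⁻¹ * (c * a) = a
        simp
      have e2 : (leftIso S c⁻¹).toHom (c * b) = b := by
        show c⁻¹ * (c * b) = b
        simp
      rwa [e1, e2] at this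
    rw [dist_eq_zero_of_not_reachable h, dist_eq_zero_of_not_reachable h']

theorem cay_reachable_mul {a s : G} (hs : s ∈ S ∨ s⁻¹ ∈ S) :
    (mulCayley S).Reachable a (a * s) := by
  by_cases h1 : s = 1
  · subst h1; rw [mul_one]
  · exact (cadj_mul hs h1).reachable

theorem cay_connected (hS : Subgroup.closure S = ⊤) : (mulCayley S).Connected := by
  have h1 : ∀ g : G, (mulCayley S).Reachable 1 g := by
    intro g
    have hg : g ∈ Subgroup.closure S := by rw [hS]; trivial
    induction hg using Subgroup.closure_induction_right with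
    | one => exact Reachable.refl _
    | mul_right x y _ hy ih => exact ih.trans (cay_reachable_mul (Or.inl hy))
    | mul_inv_cancel x y _ hy ih =>
      exact ih.trans (cay_reachable_mul (Or.inr (by simpa using hy)))
  have : Nonempty G := ⟨1⟩
  exact ⟨fun a b => (h1 a).symm.trans (h1 b)⟩

/-- Induction along words. -/
theorem walk_rec {P : ℕ → G → Prop} (h0 : P 0 1)
    (h1 : ∀ n g s, P n g → (s ∈ S ∨ s⁻¹ ∈ S) → P (n + 1) (g * s)) :
    ∀ (n : ℕ) (g : G), (∃ p : (mulCayley S).Walk 1 g, p.length = n) → P n g := by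
  intro n
  induction n with
  | zero =>
    rintro g ⟨p, hp⟩
    have := Walk.eq_of_length_eq_zero hp
    subst this
    exact h0
  | succ n ih =>
    rintro g ⟨p, hp⟩
    obtain ⟨q, hq⟩ : ∃ q : (mulCayley S).Walk g 1, q.length = n + 1 :=
      ⟨p.reverse, by rw [Walk.length_reverse]; exact hp⟩
    cases q with
    | nil => simp at hq
    | @cons _ v _ hadj q =>
      have h2 := ih v ⟨q.reverse, by
        rw [Walk.length_reverse]; simpa using hq⟩
      have h3 := h1 n v (v⁻¹ * g) h2 ((cadj.1 hadj.symm).2)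
      simpa using h3

/-- Induction along geodesic words. -/
theorem wl_rec (hS : Subgroup.closure S = ⊤) {P : ℕ → G → Prop} (h0 : P 0 1)
    (h1 : ∀ n g s, P n g → (s ∈ S ∨ s⁻¹ ∈ S) → P (n + 1) (g * s)) (g : G) :
    P ((mulCayley S).dist 1 g) g := by
  obtain ⟨p, hp⟩ := (cay_connected hS).exists_walk_length_eq_dist 1 g
  exact walk_rec h0 h1 _ g ⟨p, hp⟩

theorem dist_mul_step {g s : G} (hs : s ∈ S ∨ s⁻¹ ∈ S) : (mulCayley S).dist g (g * s) ≤ 1 := by
  by_cases h1 : s = 1
  · subst h1; rw [mul_one, dist_self]; exact Nat.zero_le _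
  · rw [dist_eq_one_iff_adj.2 (cadj_mul hs h1)]

theorem wl_mul_step (hS : Subgroup.closure S = ⊤) {g s : G} (hs : s ∈ S ∨ s⁻¹ ∈ S) :
    (mulCayley S).dist 1 (g * s) ≤ (mulCayley S).dist 1 g + 1 :=
  ((cay_connected hS).dist_triangle (v := g)).trans (Nat.add_le_add_left (dist_mul_step hs) _)

theorem wl_mul (hS : Subgroup.closure S = ⊤) (g h : G) :
    (mulCayley S).dist 1 (g * h) ≤ (mulCayley S).dist 1 g + (mulCayley S).dist 1 h := by
  refine ((cay_connected hS).dist_triangle (v := g)).trans (Nat.add_le_add_left ?_ _)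
  have := dist_left (S := S) g 1 h
  rw [mul_one] at this
  rw [this]

theorem wl_inv (g : G) : (mulCayley S).dist 1 g⁻¹ = (mulCayley S).dist 1 g := by
  have := dist_left (S := S) g 1 g⁻¹
  rw [mul_one, mul_inv_cancel, dist_comm] at this
  exact this.symm

theorem dist_eq_wl (g h : G) : (mulCayley S).dist g h = (mulCayley S).dist 1 (g⁻¹ * h) := by
  have := dist_left (S := S) g⁻¹ g h
  rw [inv_mul_cancel] at this
  exact this.symm

theorem wl_pow (hS : Subgroup.closure S = ⊤) {s : G} (hs : s ∈ S ∨ s⁻¹ ∈ S) (k : ℕ) :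
    (mulCayley S).dist 1 (s ^ k) ≤ k := by
  induction k with
  | zero => simp
  | succ k ih =>
    rw [pow_succ]
    exact (wl_mul_step hS hs).trans (by omega)

theorem wl_step_abs (hS : Subgroup.closure S = ⊤) {a b : G} (h : (mulCayley S).Adj a b) :
    (mulCayley S).dist 1 a ≤ (mulCayley S).dist 1 b + 1 := by
  refine ((cay_connected hS).dist_triangle (v := b)).trans (Nat.add_le_add_left ?_ _)
  rw [dist_eq_one_iff_adj.2 h.symm]

end Pool.Agent.R649
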