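import Mathlib
import Pool.Agent.R649.Cay

/-! Word length, retreat depth, one-endedness and connected spheres for a group with a generating
set, in terms of Mathlib's Cayley graph `SimpleGraph.mulCayley S` (`a` and `a * s` are adjacent for
`s ∈ S`; only the symmetrised set matters). -/

namespace Pool.Agent.R649

open SimpleGraph

universe u

variable {G : Type u} [Group G]

/-- The word length of `g`: the distance from `1` to `g` in the Cayley graph of `(G, S)`. -/
noncomputable def wordLength (S : Set G) (g : G) : ℕ := (mulCayley S).dist 1 g

/-- The complement of the ball `B(n-1)`: the elements of word length at least `n`. -/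
def outside (S : Set G) (n : ℕ) : Set G := {g | n ≤ wordLength S g}

/-- The connected component of `g` in the subgraph of the Cayley graph induced on the complement
of the ball `B(n-1)` (the empty set if `g` lies in `B(n-1)`). -/
def component (S : Set G) (n : ℕ) (g : G) : Set G :=
  {h | ∃ (hg : g ∈ outside S n) (hh : h ∈ outside S n),
    ((mulCayley S).induce (outside S n)).Reachable ⟨g, hg⟩ ⟨h, hh⟩}

/-- The retreat depth of `g`: the least `d` such that `g` lies in an infinite connected component
of the complement of the ball `B(|g| - d - 1)`. -/
noncomputable def retreatDepth (S : Set G) (g : G) : ℕ :=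
  sInf {d : ℕ | (component S (wordLength S g - d) g).Infinite}

/-- The retreat depth of `(G, S)` is bounded. -/
def BoundedRetreatDepth (S : Set G) : Prop := ∃ D : ℕ, ∀ g : G, retreatDepth S g ≤ D

/-- One-endedness: for every finite set `F` of vertices, the complement of `F` in the Cayley graph
has exactly one infinite connected component. -/
def OneEnded (S : Set G) : Prop :=
  ∀ F : Set G, F.Finite →
    ∃! C : ((mulCayley S).induce Fᶜ).ConnectedComponent, C.supp.Infinite

/-- The vertices of `S(n,r)^∞`: the elements of length between `n` and `n + r` lying in an infinite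
connected component of the complement of the ball `B(n-1)`. -/
def sphereInf (S : Set G) (n r : ℕ) : Set G :=
  {g | wordLength S g ≤ n + r ∧ (component S n g).Infinite}

/-- Connected spheres: for some `r`, all the induced subgraphs `S(n,r)^∞` are connected. -/
def ConnectedSpheres (S : Set G) : Prop :=
  ∃ r : ℕ, ∀ n : ℕ, ((mulCayley S).induce (sphereInf S n r)).Connected

section lemmas

variable {S : Set G}

theorem component_outside {n : ℕ} {g h : G} (hh : h ∈ component S n g) : h ∈ outside S n :=
  hh.2.1

theorem self_mem_component {n : ℕ} {g : G} (hg : g ∈ outside S n) : g ∈ component S n g :=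
  ⟨hg, hg, Reachable.refl _⟩

/-- An exit from a finite set `R` containing `g`, on the way to infinity. -/
theorem exists_exit {n : ℕ} {g : G} (hinf : (component S n g).Infinite) {R : Set G}
    (hR : R.Finite) (hg : g ∈ R) :
    ∃ y y' : G, y ∈ R ∧ y' ∉ R ∧ (mulCayley S).Adj y y' ∧ n ≤ wordLength S y ∧
      n ≤ wordLength S y' := by
  obtain ⟨h, hh, hhR⟩ := hinf.exists_notMem_finite hR
  obtain ⟨hg', hh', hr⟩ := hh
  obtain ⟨p⟩ := hr
  have key : ∀ (a b : outside S n) (_ : ((mulCayley S).induce (outside S n)).Walk a b),
      (a : G) ∈ R → (b : G) ∉ R → ∃ y y' : G, y ∈ R ∧ y' ∉ R ∧ (mulCayley S).Adj y y' ∧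
        n ≤ wordLength S y ∧ n ≤ wordLength S y' := by
    intro a b q
    induction q with
    | nil => intro h1 h2; exact absurd h1 h2
    | @cons u v w hadj q ih =>
      intro h1 h2
      by_cases hv : (v : G) ∈ R
      · exact ih hv h2
      · exact ⟨u, v, h1, hv, by simpa using hadj, u.2, v.2⟩
  exact key _ _ p hg hhR

theorem le_retreatDepth [Infinite G] (hS : Subgroup.closure S = ⊤) {g : G} {k : ℕ}
    (h : ∀ d, (component S (wordLength S g - d) g).Infinite → k ≤ d) : k ≤ retreatDepth S g := by
  refine le_csInf ⟨wordLength S g, ?_⟩ h
  have h0 : ∀ x : G, x ∈ outside S (wordLength S g - wordLength S g) := by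
    intro x
    simp [outside]
  have huniv : component S (wordLength S g - wordLength S g) g = Set.univ := by
    ext x
    refine ⟨fun _ => trivial, fun _ => ⟨h0 g, h0 x, ?_⟩⟩
    obtain ⟨p⟩ := (cay_connected hS).preconnected g x
    have key : ∀ (a b : G) (_ : (mulCayley S).Walk a b),
        ((mulCayley S).induce (outside S (wordLength S g - wordLength S g))).Reachable
          ⟨a, h0 a⟩ ⟨b, h0 b⟩ := by
      intro a b q
      induction q with
      | nil => exact Reachable.refl _
      | @cons u v w hadj q ih =>
        refine Reachable.trans ?_ ih
        apply Adj.reachable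
        simpa using hadj
    exact key g x p
  show (component S (wordLength S g - wordLength S g) g).Infinite
  rw [huniv]
  exact Set.infinite_univ

end lemmas

end Pool.Agent.R649
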