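import Mathlib
import Pool.Agent.R649.Defs
import Pool.Agent.R649.BSNum

/-! The group `BS(1,m)` and its word metric for the generators `a`, `t`. -/

namespace Pool.Agent.R649.BS

open SimpleGraph Pool.Agent.R649 Finset

/-- The Baumslag-Solitar group `BS(1,m)`, with generators `a` (number `0`) and `t` (number `1`)
and the relation `t * a * t⁻¹ = a ^ m`. -/
abbrev BS (m : ℕ) : Type := PresentedGroup
  ({FreeGroup.of 1 * FreeGroup.of 0 * (FreeGroup.of 1)⁻¹ * (FreeGroup.of 0 ^ m)⁻¹} :
    Set (FreeGroup (Fin 2)))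

/-- The generator `a`. -/
def ga (m : ℕ) : BS m := PresentedGroup.of 0

/-- The generator `t`. -/
def gt (m : ℕ) : BS m := PresentedGroup.of 1

/-- The generating set `{a, t}`. -/
def gens (m : ℕ) : Set (BS m) := {ga m, gt m}

variable {m : ℕ}

theorem rel : gt m * ga m * (gt m)⁻¹ = ga m ^ m := by
  have h : PresentedGroup.mk
      ({FreeGroup.of 1 * FreeGroup.of 0 * (FreeGroup.of 1)⁻¹ * (FreeGroup.of 0 ^ m)⁻¹} :
        Set (FreeGroup (Fin 2)))
      (FreeGroup.of 1 * FreeGroup.of 0 * (FreeGroup.of 1)⁻¹ * (FreeGroup.of 0 ^ m)⁻¹) = 1 :=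
    PresentedGroup.one_of_mem rfl
  rw [map_mul, map_mul, map_mul, map_inv, map_inv, map_pow, mul_inv_eq_one] at h
  exact h

theorem gens_gen : Subgroup.closure (gens m) = ⊤ := by
  rw [eq_top_iff, ← PresentedGroup.closure_range_of]
  apply Subgroup.closure_mono
  rintro _ ⟨i, rfl⟩
  fin_cases i
  · exact Or.inl rfl
  · exact Or.inr rfl

/-- The height. -/
def htHom (m : ℕ) : BS m →* Multiplicative ℤ :=
  PresentedGroup.toGroup (f := ![1, Multiplicative.ofAdd 1]) (by
    intro r hr
    rw [Set.mem_singleton_iff] at hr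
    subst hr
    simp)

/-- The height, as an integer. -/
def ht (g : BS m) : ℤ := Multiplicative.toAdd (htHom m g)

@[simp] theorem ht_ga : ht (ga m) = 0 := by
  simp [ht, ga, htHom, PresentedGroup.toGroup.of]

@[simp] theorem ht_gt : ht (gt m) = 1 := by
  simp [ht, gt, htHom, PresentedGroup.toGroup.of]

@[simp] theorem ht_mul (g h : BS m) : ht (g * h) = ht g + ht h := by simp [ht]

@[simp] theorem ht_inv (g : BS m) : ht g⁻¹ = - ht g := by simp [ht]

@[simp] theorem ht_one : ht (1 : BS m) = 0 := by simp [ht]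

@[simp] theorem ht_pow (g : BS m) (k : ℕ) : ht (g ^ k) = k * ht g := by simp [ht]

@[simp] theorem ht_zpow (g : BS m) (k : ℤ) : ht (g ^ k) = k * ht g := by simp [ht]

variable [hm : Fact (2 ≤ m)]

theorem m_ne : (m : ℚ) ≠ 0 := by
  have := hm.out
  positivity

/-- The action on `ℚ`: `a` acts by `x ↦ x + 1`, `t` by `x ↦ m x`. -/
noncomputable def act (m : ℕ) [hm : Fact (2 ≤ m)] : BS m →* Equiv.Perm ℚ :=
  PresentedGroup.toGroup (f := ![Equiv.addRight 1, Equiv.mulLeft₀ (m : ℚ) m_ne]) (by
    intro r hr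
    rw [Set.mem_singleton_iff] at hr
    subst hr
    simp only [map_mul, map_inv, map_pow, FreeGroup.lift_apply_of, Matrix.cons_val_zero,
      Matrix.cons_val_one]
    rw [mul_inv_eq_one]
    have key : ∀ (k : ℕ) (x : ℚ), ((Equiv.addRight (1 : ℚ)) ^ k : Equiv.Perm ℚ) x = x + k := by
      intro k
      induction k with
      | zero => intro x; simp
      | succ k ih =>
        intro x
        rw [pow_succ, Equiv.Perm.mul_apply, ih]
        simp
        ring
    ext x
    rw [Equiv.Perm.mul_apply, Equiv.Perm.mul_apply, key]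
    have hm0 := m_ne (m := m)
    have h0 : ∀ y : ℚ, (Equiv.mulLeft₀ (m : ℚ) m_ne) y = m * y := fun y => rfl
    have h1 : (Equiv.mulLeft₀ (m : ℚ) m_ne)⁻¹ x = (m : ℚ)⁻¹ * x := by
      rw [Equiv.Perm.inv_eq_iff_eq, h0]
      field_simp
    rw [h1, h0]
    simp only [Equiv.coe_addRight]
    field_simp)

/-- The translation part. -/
noncomputable def X (g : BS m) : ℚ := act m g 0

theorem act_ga (x : ℚ) : act m (ga m) x = x + 1 := by
  simp [act, ga, PresentedGroup.toGroup.of]

theorem act_gt (x : ℚ) : act m (gt m) x = m * x := by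
  simp [act, gt, PresentedGroup.toGroup.of]

theorem act_apply (g : BS m) : ∀ x : ℚ, act m g x = (m : ℚ) ^ (ht g) * x + X g := by
  have hg : g ∈ Subgroup.closure (gens m) := by rw [gens_gen]; trivial
  have hm0 := m_ne (m := m)
  induction hg using Subgroup.closure_induction with
  | mem x hx =>
    rcases hx with rfl | hx
    · intro x
      unfold X
      rw [act_ga, act_ga]
      simp
    · rw [Set.mem_singleton_iff] at hx
      subst hx
      intro x
      unfold X
      rw [act_gt, act_gt]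
      simp
  | one =>
    intro x
    simp [X]
  | mul g h _ _ ih1 ih2 =>
    intro x
    unfold X
    rw [map_mul, Equiv.Perm.mul_apply, Equiv.Perm.mul_apply, ih1, ih2, ih1 (act m h 0), ih2 0,
      ht_mul, zpow_add₀ hm0]
    ring
  | inv g _ ih =>
    intro x
    have h1 : ∀ y, act m g⁻¹ y = (m : ℚ) ^ (-(ht g)) * (y - X g) := by
      intro y
      rw [map_inv, Equiv.Perm.inv_eq_iff_eq, ih, zpow_neg]
      have : (m : ℚ) ^ (ht g) ≠ 0 := zpow_ne_zero _ hm0
      field_simp
      ring
    unfold X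
    rw [h1, h1, ht_inv]
    ring

@[simp] theorem X_ga : X (ga m) = 1 := by simp [X, act_ga]

@[simp] theorem X_gt : X (gt m) = 0 := by simp [X, act_gt]

@[simp] theorem X_one : X (1 : BS m) = 0 := by simp [X]

theorem X_mul (g h : BS m) : X (g * h) = X g + (m : ℚ) ^ (ht g) * X h := by
  unfold X
  rw [map_mul, Equiv.Perm.mul_apply, act_apply g]
  unfold X
  ring

theorem X_inv (g : BS m) : X g⁻¹ = - (m : ℚ) ^ (-(ht g)) * X g := by
  have h := X_mul g⁻¹ g
  rw [inv_mul_cancel, X_one, ht_inv] at h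
  linarith

@[simp] theorem X_gt_inv : X (gt m)⁻¹ = 0 := by rw [X_inv]; simp

@[simp] theorem X_ga_inv : X (ga m)⁻¹ = -1 := by rw [X_inv]; simp

@[simp] theorem X_gt_pow (k : ℕ) : X (gt m ^ k) = 0 := by
  induction k with
  | zero => simp
  | succ k ih => rw [pow_succ, X_mul, ih]; simp

@[simp] theorem X_ga_pow (k : ℕ) : X (ga m ^ k) = k := by
  induction k with
  | zero => simp
  | succ k ih => rw [pow_succ, X_mul, ih]; simp

@[simp] theorem X_ga_zpow (k : ℤ) : X (ga m ^ k) = k := by
  obtain ⟨n, rfl | rfl⟩ := k.eq_nat_or_neg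
  · rw [zpow_natCast, X_ga_pow]; simp
  · rw [zpow_neg, zpow_natCast, X_inv, X_ga_pow]; simp

/-! Normal form and injectivity. -/

omit hm in
theorem pow_zpow_aux {G : Type} [Group G] (x : G) (n : ℕ) (j : ℤ) :
    (x ^ n) ^ j = x ^ ((n : ℤ) * j) := by
  rw [zpow_mul, zpow_natCast]


theorem gt_pow_ga (k : ℕ) : gt m ^ k * ga m = ga m ^ (m ^ k) * gt m ^ k := by
  induction k with
  | zero => simp
  | succ k ih =>
    have h1 : ∀ n : ℕ, gt m * ga m ^ n = ga m ^ (m * n) * gt m := by
      intro n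
      have h2 : gt m * ga m ^ n * (gt m)⁻¹ = (gt m * ga m * (gt m)⁻¹) ^ n := by
        rw [conj_pow]
      rw [rel, ← pow_mul] at h2
      rw [← h2]
      group
    rw [pow_succ', mul_assoc, ih, ← mul_assoc, h1, mul_assoc, pow_succ' m k]

theorem normal_form (g : BS m) : ∃ (i k : ℕ) (j : ℤ), g = (gt m)⁻¹ ^ i * ga m ^ j * gt m ^ k := by
  have hg : g ∈ Subgroup.closure (gens m) := by rw [gens_gen]; trivial
  have hconj : ∀ k : ℕ, gt m ^ k * (ga m)⁻¹ = (ga m)⁻¹ ^ (m ^ k) * gt m ^ k := by
    intro k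
    have h := gt_pow_ga (m := m) k
    have h2 : gt m ^ k * ga m * (gt m ^ k)⁻¹ = ga m ^ (m ^ k) := by rw [h]; group
    have h3 := congrArg (fun x => x⁻¹) h2
    simp only [mul_inv_rev, inv_inv] at h3
    rw [inv_pow, ← h3]
    group
  induction hg using Subgroup.closure_induction_right with
  | one => exact ⟨0, 0, 0, by simp⟩
  | mul_right x y _ hy ih =>
    obtain ⟨i, k, j, rfl⟩ := ih
    rcases hy with rfl | hy
    · refine ⟨i, k, j + (m ^ k : ℕ), ?_⟩
      rw [mul_assoc, gt_pow_ga, zpow_add, zpow_natCast]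
      simp only [mul_assoc]
    · rw [Set.mem_singleton_iff] at hy
      subst hy
      exact ⟨i, k + 1, j, by rw [pow_succ, ← mul_assoc]⟩
  | mul_inv_cancel x y _ hy ih =>
    obtain ⟨i, k, j, rfl⟩ := ih
    rcases hy with rfl | hy
    · refine ⟨i, k, j - (m ^ k : ℕ), ?_⟩
      rw [mul_assoc, hconj, zpow_sub, zpow_natCast, inv_pow, inv_pow]
      simp only [mul_assoc]
    · rw [Set.mem_singleton_iff] at hy
      subst hy
      cases k with
      | succ k =>
        refine ⟨i, k, j, ?_⟩
        rw [pow_succ]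
        group
      | zero =>
        refine ⟨i + 1, 0, m * j, ?_⟩
        have h2 : gt m * ga m ^ j * (gt m)⁻¹ = (gt m * ga m * (gt m)⁻¹) ^ j := by
          rw [conj_zpow]
        rw [rel, pow_zpow_aux] at h2
        rw [← h2, pow_zero, mul_one, mul_one, pow_succ]
        group

theorem ext_of {g h : BS m} (h1 : ht g = ht h) (h2 : X g = X h) : g = h := by
  have key : ∀ g : BS m, ht g = 0 → X g = 0 → g = 1 := by
    intro g hg1 hg2
    obtain ⟨i, k, j, rfl⟩ := normal_form g
    simp only [inv_pow, ht_mul, ht_inv, ht_pow, ht_gt, mul_one, ht_zpow, ht_ga, mul_zero,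
      add_zero] at hg1
    have hik : i = k := by omega
    subst hik
    rw [X_mul, X_mul, X_gt_pow, inv_pow, X_inv, X_gt_pow, X_ga_zpow, ht_inv, ht_pow, ht_gt] at hg2
    simp only [mul_zero, zero_add, add_zero] at hg2
    rcases mul_eq_zero.1 hg2 with h3 | h3
    · exact absurd h3 (zpow_ne_zero _ m_ne)
    · have : j = 0 := by exact_mod_cast h3
      subst this
      simp
  have h3 := key (g⁻¹ * h) (by rw [ht_mul, ht_inv, h1]; omega) (by
    rw [X_mul, X_inv, ht_inv, h2]; ring)
  exact (inv_mul_eq_one.1 h3)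

end Pool.Agent.R649.BS
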