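import Mathlib
import Pool.Agent.R649.BS

/-! Lower and upper bounds for the word metric of `BS(1,m)`. -/

namespace Pool.Agent.R649.BS

open SimpleGraph Pool.Agent.R649 Finset

variable {m : ℕ} [hm : Fact (2 ≤ m)]

/-- `g` is the value of a word of length at most `l` visiting the heights from `-lo` to `hi`,
with exponent sum `d i` at height `i`. -/
def Rep (l : ℕ) (g : BS m) : Prop :=
  ∃ (lo hi : ℕ) (d : ℤ → ℤ), (∀ i, d i ≠ 0 → -(lo : ℤ) ≤ i ∧ i ≤ hi) ∧
    -(lo : ℤ) ≤ ht g ∧ ht g ≤ hi ∧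
    X g = ∑ i ∈ Icc (-(lo : ℤ)) hi, (d i : ℚ) * (m : ℚ) ^ i ∧
    2 * ((lo : ℤ) + hi) - |ht g| + ∑ i ∈ Icc (-(lo : ℤ)) hi, |d i| ≤ l

theorem rep_zero : Rep 0 (1 : BS m) := ⟨0, 0, fun _ => 0, by simp⟩

theorem icc_mono_sum {lo hi lo' hi' : ℤ} (h1 : lo' ≤ lo) (h2 : hi ≤ hi') {M : Type*}
    [AddCommMonoid M] (F : ℤ → M) (hF : ∀ i, ¬ (lo ≤ i ∧ i ≤ hi) → F i = 0) :
    ∑ i ∈ Icc lo' hi', F i = ∑ i ∈ Icc lo hi, F i := by
  symm
  apply sum_subset (Icc_subset_Icc h1 h2)
  intro i _ hi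
  exact hF i (by simpa using hi)

theorem rep_up {l : ℕ} {g : BS m} (h : Rep l g) : Rep (l + 1) (g * gt m) := by
  obtain ⟨lo, hi, d, h1, h2, h3, h4, h5⟩ := h
  have hX : X (g * gt m) = X g := by rw [X_mul]; simp
  by_cases hk : ht g + 1 ≤ hi
  · refine ⟨lo, hi, d, h1, by simp; omega, by simp; omega, by rw [hX, h4], ?_⟩
    rw [ht_mul, ht_gt]
    have : |ht g| ≤ |ht g + 1| + 1 := by
      have := abs_sub (ht g + 1) 1
      simpa using this
    push_cast
    linarith
  · have hk' : ht g = hi := by omega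
    refine ⟨lo, hi + 1, d, ?_, by simp; omega, by simp; omega, ?_, ?_⟩
    · intro i hi
      have := h1 i hi
      push_cast
      omega
    · rw [hX, h4]
      symm
      apply icc_mono_sum le_rfl (by push_cast; omega)
      intro i hi
      by_cases hd : d i = 0
      · simp [hd]
      · exact absurd (h1 i hd) hi
    · rw [icc_mono_sum (lo := -(lo : ℤ)) (hi := hi) le_rfl (by push_cast; omega)]
      · rw [ht_mul, ht_gt, hk']
        have e1 : |((hi : ℕ) : ℤ)| = hi := abs_of_nonneg (Int.natCast_nonneg _)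
        have e2 : |((hi : ℕ) : ℤ) + 1| = hi + 1 := abs_of_nonneg (by positivity)
        rw [hk', e1] at h5
        rw [e2]
        push_cast
        linarith
      · intro i hi
        by_cases hd : d i = 0
        · simp [hd]
        · exact absurd (h1 i hd) hi

theorem rep_down {l : ℕ} {g : BS m} (h : Rep l g) : Rep (l + 1) (g * (gt m)⁻¹) := by
  obtain ⟨lo, hi, d, h1, h2, h3, h4, h5⟩ := h
  have hX : X (g * (gt m)⁻¹) = X g := by rw [X_mul]; simp
  by_cases hk : -(lo : ℤ) ≤ ht g - 1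
  · refine ⟨lo, hi, d, h1, by simp; omega, by simp; omega, by rw [hX, h4], ?_⟩
    rw [ht_mul, ht_inv, ht_gt]
    have : |ht g| ≤ |ht g + -1| + 1 := by
      have := abs_sub (ht g + -1) (-1)
      simpa using this
    push_cast
    linarith
  · have hk' : ht g = -(lo : ℤ) := by omega
    refine ⟨lo + 1, hi, d, ?_, by simp; omega, by simp; omega, ?_, ?_⟩
    · intro i hi
      have := h1 i hi
      push_cast
      omega
    · rw [hX, h4]
      symm
      apply icc_mono_sum (by push_cast; omega) le_rfl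
      intro i hi
      by_cases hd : d i = 0
      · simp [hd]
      · exact absurd (h1 i hd) hi
    · rw [icc_mono_sum (lo := -(lo : ℤ)) (hi := hi) (by push_cast; omega) le_rfl]
      · rw [ht_mul, ht_inv, ht_gt, hk']
        have e1 : |-((lo : ℕ) : ℤ)| = lo := by rw [abs_neg]; exact abs_of_nonneg (Int.natCast_nonneg _)
        have e2 : |-((lo : ℕ) : ℤ) + -1| = lo + 1 := by
          rw [abs_of_nonpos (by have := Int.natCast_nonneg lo; omega)]; ring
        rw [hk', e1] at h5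
        rw [e2]
        push_cast
        linarith
      · intro i hi
        by_cases hd : d i = 0
        · simp [hd]
        · exact absurd (h1 i hd) hi

theorem rep_add {l : ℕ} {g : BS m} (h : Rep l g) (s : BS m) (e : ℤ) (he : |e| = 1)
    (hs : ht s = 0) (hsX : X s = e) : Rep (l + 1) (g * s) := by
  obtain ⟨lo, hi, d, h1, h2, h3, h4, h5⟩ := h
  have hmem : ht g ∈ Icc (-(lo : ℤ)) hi := mem_Icc.2 ⟨h2, h3⟩
  refine ⟨lo, hi, fun i => d i + if i = ht g then e else 0, ?_, ?_, ?_, ?_, ?_⟩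
  · intro i hi
    by_cases h : i = ht g
    · rw [h]; exact ⟨h2, h3⟩
    · simp only [h, if_false, add_zero] at hi
      exact h1 i hi
  · rw [ht_mul, hs, add_zero]; exact h2
  · rw [ht_mul, hs, add_zero]; exact h3
  · rw [X_mul, h4, hsX]
    have : ∀ i ∈ Icc (-(lo : ℤ)) hi, (((d i + if i = ht g then e else 0 : ℤ)) : ℚ) * (m : ℚ) ^ i =
        (d i : ℚ) * (m : ℚ) ^ i + (if i = ht g then (m : ℚ) ^ (ht g) * e else 0) := by
      intro i _
      by_cases h : i = ht g
      · simp only [h, if_true]; push_cast; ring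
      · simp only [h, if_false, add_zero]
    rw [sum_congr rfl this, sum_add_distrib, sum_ite_eq', if_pos hmem]
  · rw [ht_mul, hs, add_zero]
    have : ∑ i ∈ Icc (-(lo : ℤ)) hi, |d i + if i = ht g then e else 0| ≤
        ∑ i ∈ Icc (-(lo : ℤ)) hi, (|d i| + if i = ht g then 1 else 0) := by
      apply sum_le_sum
      intro i _
      by_cases h : i = ht g
      · simp only [h, if_true]
        exact (abs_add_le _ _).trans (by rw [he])
      · simp [h]
    rw [sum_add_distrib, sum_ite_eq', if_pos hmem] at this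
    push_cast
    linarith

theorem rep_step (n : ℕ) (g s : BS m) (h : Rep n g) (hs : s ∈ gens m ∨ s⁻¹ ∈ gens m) :
    Rep (n + 1) (g * s) := by
  rcases hs with (rfl | hs) | (hs | hs)
  · exact rep_add h _ 1 (by simp) (by simp) (by simp)
  · rw [Set.mem_singleton_iff] at hs
    subst hs
    exact rep_up h
  · obtain rfl : s = (ga m)⁻¹ := by rw [← hs, inv_inv]
    exact rep_add h _ (-1) (by simp) (by simp) (by simp)
  · rw [Set.mem_singleton_iff] at hs
    obtain rfl : s = (gt m)⁻¹ := by rw [← hs, inv_inv]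
    exact rep_down h

theorem rep_wl (g : BS m) : Rep (wordLength (gens m) g) g := wl_rec gens_gen rep_zero rep_step g

theorem icc_to_range {M : Type*} [AddCommMonoid M] (lo hi : ℕ) (F : ℤ → M) :
    ∑ i ∈ Icc (-(lo : ℤ)) hi, F i = ∑ j ∈ range (lo + hi + 1), F ((j : ℤ) - lo) := by
  apply sum_nbij' (fun (i : ℤ) => (i + lo).toNat) (fun (j : ℕ) => (j : ℤ) - lo)
  · intro i hi
    rw [mem_Icc] at hi
    rw [mem_range]
    omega
  · intro j hj
    rw [mem_range] at hj
    rw [mem_Icc]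
    omega
  · intro i hi
    rw [mem_Icc] at hi
    omega
  · intro j _
    simp
  · intro i hi
    rw [mem_Icc] at hi
    congr 1
    omega

/-- The lower bound. -/
theorem lower (n : ℕ) (g : BS m) (hg : ht g = 0) (Z : ℤ) (hZ : (m : ℚ) ^ n * X g = Z)
    (hdvd : ¬ (m : ℤ) ∣ Z) :
    ((m : ℤ) + 3) * (2 * n) - 10 - |2 * Z - cen m (2 * n)| ≤ 2 * wordLength (gens m) g := by
  have hm2 : (2 : ℤ) ≤ m := by exact_mod_cast hm.out
  have hm0 := m_ne (m := m)
  obtain ⟨lo, hi, d, h1, h2, h3, h4, h5⟩ := rep_wl g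
  rw [hg, abs_zero, sub_zero] at h5
  rw [icc_to_range] at h4 h5
  obtain ⟨f, hf⟩ : ∃ f : ℕ → ℤ, f = fun (j : ℕ) => d ((j : ℤ) - lo) := ⟨_, rfl⟩
  have hfj : ∀ j : ℕ, d ((j : ℤ) - lo) = f j := fun j => by rw [hf]
  have hX : (m : ℚ) ^ lo * X g = ((∑ j ∈ range (lo + hi + 1), f j * (m : ℤ) ^ j : ℤ) : ℚ) := by
    rw [h4, mul_sum]
    push_cast
    apply sum_congr rfl
    intro j _
    rw [hfj, zpow_sub₀ hm0, zpow_natCast, zpow_natCast]
    have : (m : ℚ) ^ lo ≠ 0 := pow_ne_zero _ hm0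
    field_simp
  have h5' : 2 * ((lo : ℤ) + hi) + ∑ j ∈ range (lo + hi + 1), |f j| ≤ wordLength (gens m) g := by
    have : ∑ j ∈ range (lo + hi + 1), |f j| = ∑ j ∈ range (lo + hi + 1), |d ((j : ℤ) - lo)| :=
      sum_congr rfl fun j _ => by rw [hfj]
    rw [this]
    exact h5
  have hlo : n ≤ lo := by
    by_contra hlt
    push Not at hlt
    apply hdvd
    obtain ⟨j, rfl⟩ : ∃ j, n = lo + (j + 1) := ⟨n - lo - 1, by omega⟩
    have : Z = (m : ℤ) ^ (j + 1) * ∑ j ∈ range (lo + hi + 1), f j * (m : ℤ) ^ j := by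
      have h : (Z : ℚ) = (((m : ℤ) ^ (j + 1) * ∑ j ∈ range (lo + hi + 1), f j * (m : ℤ) ^ j : ℤ) :
          ℚ) := by
        rw [← hZ, pow_add, mul_comm ((m : ℚ) ^ lo), mul_assoc, hX]
        push_cast
        rfl
      exact_mod_cast h
    rw [this, pow_succ']
    exact Dvd.intro _ (by rw [mul_assoc])
  obtain ⟨j, rfl⟩ : ∃ j, lo = n + j := ⟨lo - n, by omega⟩
  have hZ' : (m : ℤ) ^ j * Z = ∑ i ∈ range (n + j + hi + 1), f i * (m : ℤ) ^ i := by
    have h : (((m : ℤ) ^ j * Z : ℤ) : ℚ) =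
        ((∑ i ∈ range (n + j + hi + 1), f i * (m : ℤ) ^ i : ℤ) : ℚ) := by
      rw [← hX]
      push_cast
      rw [← hZ]
      ring
    exact_mod_cast h
  obtain ⟨f', hf1, hf2⟩ := shorten hm2 j (n + j + hi) Z f (by omega) hZ'
  have e1 : n + j + hi - j = n + hi := by omega
  rw [e1] at hf1 hf2
  have hp := pot hm2 (n + hi) (2 * n) f'
  rw [← hf1] at hp
  have hb : ((m : ℤ) + 3) * (2 * n) - 10 ≤ 4 * ((n : ℤ) + hi) + bd m (n + hi) (2 * n) := by
    unfold bd
    split_ifs with h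
    · have : (2 * n : ℤ) ≤ n + hi := by exact_mod_cast h
      push_cast
      nlinarith
    · have hc := cen_ge hm2 (2 * n - (n + hi))
      have e2 : (((2 * n - (n + hi) : ℕ)) : ℤ) = 2 * n - (n + hi) := by
        rw [Nat.cast_sub (by omega)]
        push_cast
        ring
      rw [e2] at hc
      push_cast
      nlinarith
  push_cast at h5'
  have hj : (0 : ℤ) ≤ j := Int.natCast_nonneg _
  linarith

/-! Upper bounds. -/

/-- `a^(f 0) t a^(f 1) t ... t a^(f L)`. -/
def up (f : ℕ → ℤ) : ℕ → BS m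
  | 0 => ga m ^ f 0
  | L + 1 => up f L * gt m * ga m ^ f (L + 1)

/-- `a^(f L) t⁻¹ ... t⁻¹ a^(f 0)`. -/
def dn (f : ℕ → ℤ) : ℕ → BS m
  | 0 => ga m ^ f 0
  | L + 1 => ga m ^ f (L + 1) * (gt m)⁻¹ * dn f L

omit hm in
theorem wl_ga_zpow (c : ℤ) : (wordLength (gens m) (ga m ^ c) : ℤ) ≤ |c| := by
  unfold wordLength
  obtain ⟨n, rfl | rfl⟩ := c.eq_nat_or_neg
  · rw [zpow_natCast]
    have := wl_pow gens_gen (s := ga m) (Or.inl (Or.inl rfl)) n
    rw [Nat.abs_cast]
    exact_mod_cast this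
  · rw [zpow_neg, zpow_natCast, wl_inv]
    have := wl_pow gens_gen (s := ga m) (Or.inl (Or.inl rfl)) n
    rw [abs_neg, Nat.abs_cast]
    exact_mod_cast this

omit hm in
theorem wl_gt_pow (n : ℕ) : wordLength (gens m) (gt m ^ n) ≤ n :=
  wl_pow gens_gen (s := gt m) (Or.inl (Or.inr rfl)) n

omit hm in
theorem wl_mul' (g h : BS m) : wordLength (gens m) (g * h) ≤
    wordLength (gens m) g + wordLength (gens m) h := wl_mul gens_gen g h

omit hm in
theorem wl_inv' (g : BS m) : wordLength (gens m) g⁻¹ = wordLength (gens m) g := wl_inv g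

omit hm in
theorem wl_up (f : ℕ → ℤ) (L : ℕ) :
    (wordLength (gens m) (up f L : BS m) : ℤ) ≤ L + ∑ i ∈ range (L + 1), |f i| := by
  induction L with
  | zero => simpa [up] using wl_ga_zpow (m := m) (f 0)
  | succ L ih =>
    rw [up, sum_range_succ]
    have h1 := wl_mul' (up f L * gt m : BS m) (ga m ^ f (L + 1))
    have h2 := wl_mul' (up f L : BS m) (gt m)
    have h3 := wl_gt_pow (m := m) 1
    rw [pow_one] at h3
    have h4 := wl_ga_zpow (m := m) (f (L + 1))
    push_cast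
    omega

omit hm in
theorem wl_dn (f : ℕ → ℤ) (L : ℕ) :
    (wordLength (gens m) (dn f L : BS m) : ℤ) ≤ L + ∑ i ∈ range (L + 1), |f i| := by
  induction L with
  | zero => simpa [dn] using wl_ga_zpow (m := m) (f 0)
  | succ L ih =>
    rw [dn, sum_range_succ]
    have h1 := wl_mul' (ga m ^ f (L + 1) * (gt m)⁻¹ : BS m) (dn f L)
    have h2 := wl_mul' (ga m ^ f (L + 1) : BS m) (gt m)⁻¹
    have h3 := wl_gt_pow (m := m) 1
    rw [pow_one] at h3
    rw [wl_inv'] at h2
    have h4 := wl_ga_zpow (m := m) (f (L + 1))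
    push_cast
    omega

theorem ht_up (f : ℕ → ℤ) (L : ℕ) : ht (up f L : BS m) = L := by
  induction L with
  | zero => simp [up]
  | succ L ih => simp [up, ih]

theorem ht_dn (f : ℕ → ℤ) (L : ℕ) : ht (dn f L : BS m) = -L := by
  induction L with
  | zero => simp [dn]
  | succ L ih => simp [dn, ih]

theorem X_up (f : ℕ → ℤ) (L : ℕ) :
    X (up f L : BS m) = ∑ i ∈ range (L + 1), (f i : ℚ) * (m : ℚ) ^ i := by
  induction L with
  | zero => simp [up]
  | succ L ih =>
    rw [up, sum_range_succ, X_mul, X_mul, ih, ht_mul, ht_up, ht_gt, X_gt, X_ga_zpow]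
    have : (m : ℚ) ^ ((L : ℤ) + 1) = (m : ℚ) ^ (L + 1) := by
      rw [← zpow_natCast]; push_cast; rfl
    rw [this]
    ring

theorem X_dn (f : ℕ → ℤ) (L : ℕ) :
    (m : ℚ) ^ L * X (dn f L : BS m) = ∑ i ∈ range (L + 1), (f i : ℚ) * (m : ℚ) ^ i := by
  have hm0 := m_ne (m := m)
  induction L with
  | zero => simp [dn]
  | succ L ih =>
    rw [dn, sum_range_succ, ← ih, X_mul, X_mul, ht_mul, ht_inv, ht_gt, X_gt_inv, X_ga_zpow]
    simp only [ht_zpow, ht_ga, mul_zero, zero_add, add_zero]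
    rw [zpow_neg, zpow_one, pow_succ]
    field_simp
    ring

/-- The upper bound. -/
theorem upper (n : ℕ) (g : BS m) (h1 : |ht g| ≤ n) (f : ℕ → ℤ)
    (hX : (m : ℚ) ^ n * X g = ∑ i ∈ range (2 * n + 1), (f i : ℚ) * (m : ℚ) ^ i) :
    (wordLength (gens m) g : ℤ) ≤ 4 * n - |ht g| + ∑ i ∈ range (2 * n + 1), |f i| := by
  have hm0 := m_ne (m := m)
  have hmn : (m : ℚ) ^ n ≠ 0 := pow_ne_zero _ hm0
  rcases le_total 0 (ht g) with h0 | h0
  · rw [abs_of_nonneg h0] at h1 ⊢
    obtain ⟨k, hk⟩ := Int.eq_ofNat_of_zero_le h0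
    have hkn : k ≤ n := by omega
    have e : g = (gt m ^ n)⁻¹ * up f (2 * n) * (gt m ^ (n - k))⁻¹ := by
      apply ext_of
      · simp only [ht_mul, ht_inv, ht_pow, ht_gt, ht_up, hk]
        push_cast [Nat.cast_sub hkn]
        ring
      · rw [X_mul, X_mul, X_inv, X_inv, X_gt_pow, X_gt_pow, X_up, ht_inv, ht_pow, ht_gt]
        have : (m : ℚ) ^ (-((n : ℤ) * 1)) = ((m : ℚ) ^ n)⁻¹ := by
          rw [mul_one, zpow_neg, zpow_natCast]
        rw [this, ← hX]
        field_simp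
        ring
    have h2 := wl_up (m := m) f (2 * n)
    have h3 := wl_gt_pow (m := m) n
    have h4 := wl_gt_pow (m := m) (n - k)
    have h5 := wl_mul' ((gt m ^ n)⁻¹ * up f (2 * n) : BS m) (gt m ^ (n - k))⁻¹
    have h6 := wl_mul' ((gt m ^ n)⁻¹ : BS m) (up f (2 * n))
    rw [← e] at h5
    rw [wl_inv'] at h5 h6
    rw [hk]
    push_cast at h2
    have h7 : ((n - k : ℕ) : ℤ) = n - k := by push_cast [Nat.cast_sub hkn]; rfl
    omega
  · rw [abs_of_nonpos h0] at h1 ⊢
    obtain ⟨k, hk⟩ := Int.eq_ofNat_of_zero_le (neg_nonneg.2 h0)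
    have hkn : k ≤ n := by omega
    have e : g = gt m ^ n * dn f (2 * n) * gt m ^ (n - k) := by
      apply ext_of
      · simp only [ht_mul, ht_pow, ht_gt, ht_dn]
        push_cast [Nat.cast_sub hkn]
        omega
      · rw [X_mul, X_mul, X_gt_pow, X_gt_pow, ht_pow, ht_gt]
        have h8 := X_dn (m := m) f (2 * n)
        have : (m : ℚ) ^ ((n : ℤ) * 1) = (m : ℚ) ^ n := by
          rw [mul_one, zpow_natCast]
        rw [this]
        have h10 : (m : ℚ) ^ (2 * n) = (m : ℚ) ^ n * (m : ℚ) ^ n := by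
          rw [two_mul, pow_add]
        rw [← hX, h10, mul_assoc] at h8
        have h9 := mul_left_cancel₀ hmn h8
        rw [h9]
        ring
    have h2 := wl_dn (m := m) f (2 * n)
    have h3 := wl_gt_pow (m := m) n
    have h4 := wl_gt_pow (m := m) (n - k)
    have h5 := wl_mul' (gt m ^ n * dn f (2 * n) : BS m) (gt m ^ (n - k))
    have h6 := wl_mul' (gt m ^ n : BS m) (dn f (2 * n))
    rw [← e] at h5
    rw [hk]
    push_cast at h2
    have h7 : ((n - k : ℕ) : ℤ) = n - k := by push_cast [Nat.cast_sub hkn]; rfl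
    omega

end Pool.Agent.R649.BS
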