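import Mathlib
import Pool.Agent.R649.BSLen

/-! The retreat depth of `BS(1,m)` is unbounded. -/

namespace Pool.Agent.R649.BS

open SimpleGraph Pool.Agent.R649 Finset

variable {m : ℕ} [hm : Fact (2 ≤ m)]

omit hm in
theorem ht_surj : Function.Surjective (ht : BS m → ℤ) := by
  intro k
  exact ⟨gt m ^ k, by simp⟩

instance inf : Infinite (BS m) := Infinite.of_surjective _ ht_surj

/-- The finite region containing `x`. -/
def Reg (n : ℕ) : Set (BS m) :=
  {y | |ht y| ≤ n ∧ ∃ W : ℤ, |W| ≤ (m : ℤ) ^ (2 * n) ∧ (m : ℚ) ^ n * X y = W}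

theorem reg_finite (n : ℕ) : (Reg n : Set (BS m)).Finite := by
  have hmn : (m : ℚ) ^ n ≠ 0 := pow_ne_zero _ m_ne
  apply Set.Finite.of_finite_image (f := fun y : BS m => (ht y, X y))
  · apply Set.Finite.subset
      (Set.Finite.image (fun p : ℤ × ℤ => (p.1, (p.2 : ℚ) / (m : ℚ) ^ n))
        ((Set.finite_Icc (-(n : ℤ)) n).prod
          (Set.finite_Icc (-((m : ℤ) ^ (2 * n))) ((m : ℤ) ^ (2 * n)))))
    rintro _ ⟨y, ⟨h1, W, h2, h3⟩, rfl⟩
    refine ⟨(ht y, W), ⟨?_, ?_⟩, ?_⟩
    · exact abs_le.1 h1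
    · exact abs_le.1 h2
    · simp only [Prod.mk.injEq, true_and]
      rw [← h3]
      field_simp
  · intro y _ z _ h
    simp only [Prod.mk.injEq] at h
    exact ext_of h.1 h.2

/-- Length of a boundary vertex where the height leaves the range. -/
theorem exit_t (n : ℕ) (y : BS m) (hy : |ht y| = n) (W : ℤ) (hW : |W| ≤ (m : ℤ) ^ (2 * n))
    (hX : (m : ℚ) ^ n * X y = W) :
    2 * (wordLength (gens m) y : ℤ) ≤ (2 * m + 4) * n + 2 := by
  have hm2 : (2 : ℤ) ≤ m := by exact_mod_cast hm.out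
  obtain ⟨f, hf1, hf2⟩ := small_weight hm2 (2 * n) W hW
  have h := upper n y (by omega) f (by rw [hX, hf1]; push_cast; rfl)
  rw [hy] at h
  push_cast at hf2
  linarith

theorem exit_a_pos (n k : ℕ) (hk : k ≤ 2 * n) (y : BS m) (hy : ht y = (k : ℤ) - n) (u : ℤ)
    (h0 : |u| ≤ (m : ℤ) ^ k) (e : ℤ) (he : |e| = 1)
    (hX : (m : ℚ) ^ n * X y = (e * ((m : ℤ) ^ (2 * n) - u) : ℤ)) :
    2 * (wordLength (gens m) y : ℤ) ≤ 8 * n - 2 * |(k : ℤ) - n| + (m - 1) * k + 4 := by
  have hm2 : (2 : ℤ) ≤ m := by exact_mod_cast hm.out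
  obtain ⟨f, hf1, hf2⟩ := small_weight hm2 k u h0
  have hsum : ∀ F : ℕ → ℤ, ∑ i ∈ range (2 * n + 1), (if i < k + 1 then F i else 0) =
      ∑ i ∈ range (k + 1), F i := by
    intro F
    rw [← sum_filter]
    apply sum_congr _ (fun _ _ => rfl)
    ext i
    simp only [mem_filter, mem_range]
    omega
  have hd : ∑ i ∈ range (2 * n + 1), (if i = 2 * n then (1 : ℤ) else 0) = 1 := by
    rw [sum_ite_eq', if_pos (by simp)]
  have h := upper n y (by rw [hy, abs_le]; omega)
    (fun i => e * ((if i = 2 * n then 1 else 0) - (if i < k + 1 then f i else 0)))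
    (by
      rw [hX]
      have : (e * ((m : ℤ) ^ (2 * n) - u) : ℤ) = ∑ i ∈ range (2 * n + 1),
          (e * ((if i = 2 * n then 1 else 0) - (if i < k + 1 then f i else 0))) * (m : ℤ) ^ i := by
        have e1 : ∀ i, (e * ((if i = 2 * n then 1 else 0) -
            (if i < k + 1 then f i else 0))) * (m : ℤ) ^ i =
            e * ((if i = 2 * n then (m : ℤ) ^ (2 * n) else 0) -
              (if i < k + 1 then f i * (m : ℤ) ^ i else 0)) := by
          intro i
          by_cases hi : i = 2 * n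
          · subst hi
            simp only [if_true]
            split_ifs <;> ring
          · simp only [hi, if_false]
            split_ifs <;> ring
        simp_rw [e1]
        rw [← mul_sum, sum_sub_distrib, hsum, ← hf1, sum_ite_eq', if_pos (by simp)]
      rw [this]
      push_cast
      rfl)
  have hw : ∑ i ∈ range (2 * n + 1),
      |e * ((if i = 2 * n then 1 else 0) - (if i < k + 1 then f i else 0))| ≤
      1 + ∑ i ∈ range (k + 1), |f i| := by
    calc ∑ i ∈ range (2 * n + 1),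
          |e * ((if i = 2 * n then 1 else 0) - (if i < k + 1 then f i else 0))|
        ≤ ∑ i ∈ range (2 * n + 1),
          ((if i = 2 * n then 1 else 0) + (if i < k + 1 then |f i| else 0)) := by
          apply sum_le_sum
          intro i _
          rw [abs_mul, he, one_mul]
          refine (abs_sub _ _).trans ?_
          apply add_le_add
          · split_ifs <;> simp
          · split_ifs <;> simp
      _ = 1 + ∑ i ∈ range (k + 1), |f i| := by
          rw [sum_add_distrib, hd, hsum]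
  rw [hy] at h
  linarith

theorem exit_a (n : ℕ) (y : BS m) (hy : |ht y| ≤ n) (W W' : ℤ) (hW : |W| ≤ (m : ℤ) ^ (2 * n))
    (hX : (m : ℚ) ^ n * X y = W) (k : ℕ) (hk : ht y = (k : ℤ) - n)
    (hW' : W' = W + m ^ k ∨ W' = W - m ^ k) (hWb : (m : ℤ) ^ (2 * n) < |W'|) :
    2 * (wordLength (gens m) y : ℤ) ≤ 8 * n - 2 * |(k : ℤ) - n| + (m - 1) * k + 4 := by
  have hk2 : k ≤ 2 * n := by
    rw [abs_le] at hy
    omega
  have hmk : (0 : ℤ) < (m : ℤ) ^ k := by
    have := hm.out
    positivity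
  obtain ⟨M, hM⟩ : ∃ M : ℤ, M = (m : ℤ) ^ (2 * n) := ⟨_, rfl⟩
  obtain ⟨K, hK⟩ : ∃ K : ℤ, K = (m : ℤ) ^ k := ⟨_, rfl⟩
  rw [← hM] at hW hWb
  rw [← hK] at hW' hmk
  have hlt : M - |W| < K := by
    have : |W'| ≤ |W| + K := by
      rcases hW' with h | h
      · rw [h]
        exact (abs_add_le _ _).trans (by rw [abs_of_pos hmk])
      · rw [h]
        exact (abs_sub _ _).trans (by rw [abs_of_pos hmk])
    omega
  rcases le_total 0 W with h | h
  · rw [abs_of_nonneg h] at hW hlt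
    refine exit_a_pos n k hk2 y hk (M - W) ?_ 1 (by simp) ?_
    · rw [← hK, abs_of_nonneg (by omega)]
      omega
    · rw [hX, ← hM]
      congr 1
      ring
  · rw [abs_of_nonpos h] at hW hlt
    refine exit_a_pos n k hk2 y hk (M + W) ?_ (-1) (by simp) ?_
    · rw [← hK, abs_of_nonneg (by omega)]
      omega
    · rw [hX, ← hM]
      congr 1
      ring

/-- Every boundary vertex of the region is much shorter than `x`. -/
theorem exit_bound (n : ℕ) (y y' : BS m) (hy : y ∈ (Reg n : Set (BS m)))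
    (hy' : y' ∉ (Reg n : Set (BS m))) (hadj : (mulCayley (gens m)).Adj y y') :
    2 * (wordLength (gens m) y : ℤ) + n ≤ (2 * m + 6) * n + 4 := by
  have hm2 : (2 : ℤ) ≤ m := by exact_mod_cast hm.out
  have hn0 : (0 : ℤ) ≤ n := Int.natCast_nonneg _
  obtain ⟨h1, W, h2, h3⟩ := hy
  obtain ⟨_, hs⟩ := cadj.1 hadj
  obtain ⟨s, hs'⟩ : ∃ s, s = y⁻¹ * y' := ⟨_, rfl⟩
  rw [← hs'] at hs
  have e : y' = y * s := by rw [hs']; group
  have hcase : (ht s = 0 ∧ (X s = 1 ∨ X s = -1)) ∨ (X s = 0 ∧ |ht s| = 1) := by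
    rcases hs with (rfl | hs) | (hs | hs)
    · left; simp
    · rw [Set.mem_singleton_iff] at hs
      subst hs
      right; simp
    · obtain rfl : s = (ga m)⁻¹ := by rw [← hs, inv_inv]
      left; simp
    · rw [Set.mem_singleton_iff] at hs
      obtain rfl : s = (gt m)⁻¹ := by rw [← hs, inv_inv]
      right; simp
  rcases hcase with ⟨hh, hX⟩ | ⟨hX, hh⟩
  · -- an `a`-step
    obtain ⟨k, hk⟩ : ∃ k : ℕ, ht y = (k : ℤ) - n := by
      rw [abs_le] at h1
      exact ⟨(ht y + n).toNat, by omega⟩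
    have hk2 : k ≤ 2 * n := by
      rw [abs_le] at h1
      omega
    have hXy' : (m : ℚ) ^ n * X y' = W + (m : ℚ) ^ k * X s := by
      rw [e, X_mul, mul_add, h3, hk, zpow_sub₀ m_ne, zpow_natCast, zpow_natCast]
      have : (m : ℚ) ^ n ≠ 0 := pow_ne_zero _ m_ne
      field_simp
    obtain ⟨W', hW', hW'2⟩ : ∃ W' : ℤ, (W' = W + (m : ℤ) ^ k ∨ W' = W - (m : ℤ) ^ k) ∧
        (m : ℚ) ^ n * X y' = W' := by
      rcases hX with h | h
      · exact ⟨W + (m : ℤ) ^ k, Or.inl rfl, by rw [hXy', h]; push_cast; ring⟩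
      · exact ⟨W - (m : ℤ) ^ k, Or.inr rfl, by rw [hXy', h]; push_cast; ring⟩
    have hWb : (m : ℤ) ^ (2 * n) < |W'| := by
      by_contra hlt
      push Not at hlt
      apply hy'
      refine ⟨?_, W', hlt, hW'2⟩
      rw [e, ht_mul, hh, add_zero]
      exact h1
    have h := exit_a n y h1 W W' h2 h3 k hk hW' hWb
    have hkn : (k : ℤ) ≤ 2 * n := by exact_mod_cast hk2
    have hk0 : (0 : ℤ) ≤ k := Int.natCast_nonneg _
    rcases le_total (n : ℤ) k with h4 | h4
    · rw [abs_of_nonneg (by omega)] at h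
      -- 8n - 2(k-n) + (m-1)k + 4 = 10 n + (m-3) k + 4
      have : 10 * (n : ℤ) + (m - 3) * k ≤ (2 * m + 5) * n := by
        nlinarith
      linarith
    · rw [abs_of_nonpos (by omega)] at h
      -- 6n + (m+1)k + 4
      nlinarith
  · -- a `t`-step
    have hht : |ht y| = n := by
      by_contra hne
      have hlt : |ht y| + 1 ≤ n := by omega
      apply hy'
      refine ⟨?_, W, h2, ?_⟩
      · rw [e, ht_mul]
        exact (abs_add_le _ _).trans (by rw [hh]; exact hlt)
      · rw [e, X_mul, hX, mul_zero, add_zero, h3]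
    have h := exit_t n y hht W h2 h3
    linarith

/-- For every `n` there is an element of length at most `(m + 3) n + 1` and of retreat depth at
least `n / 2 - 8`. -/
theorem main (m : ℕ) (hm : 2 ≤ m) (n : ℕ) : ∃ g : BS m,
    n ≤ 2 * retreatDepth (gens m) g + 16 ∧ wordLength (gens m) g ≤ (m + 3) * n + 1 := by
  haveI : Fact (2 ≤ m) := ⟨hm⟩
  have hm2 : (2 : ℤ) ≤ m := by exact_mod_cast hm
  have hm0 := m_ne (m := m)
  have hmn : (m : ℚ) ^ n ≠ 0 := pow_ne_zero _ hm0
  obtain ⟨Z, hZ1, hZ2, hZ3, hZ4⟩ := exists_heavy hm2 (2 * n)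
  obtain ⟨x, hx⟩ : ∃ x : BS m, x = (gt m ^ n)⁻¹ * ga m ^ Z * gt m ^ n := ⟨_, rfl⟩
  have hht : ht x = 0 := by rw [hx]; simp
  have hXx : (m : ℚ) ^ n * X x = Z := by
    rw [hx, X_mul, X_mul, X_inv, X_gt_pow, ht_inv, ht_pow, ht_gt, X_ga_zpow, mul_zero, zero_add,
      mul_zero, add_zero]
    have : (m : ℚ) ^ (-((n : ℤ) * 1)) = ((m : ℚ) ^ n)⁻¹ := by
      rw [mul_one, zpow_neg, zpow_natCast]
    rw [this]
    field_simp
  have hlow := lower n x hht Z hXx hZ1
  refine ⟨x, ?_, ?_⟩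
  · have key : (n - 16 + 1) / 2 ≤ retreatDepth (gens m) x := by
      apply le_retreatDepth gens_gen
      intro d hd
      have hxR : x ∈ (Reg n : Set (BS m)) :=
        ⟨by rw [hht]; simp, Z, by rw [abs_of_nonneg hZ3]; exact hZ4, hXx⟩
      obtain ⟨y, y', hy, hy', hadj, hl, _⟩ := exists_exit hd (reg_finite n) hxR
      have h1 := exit_bound n y y' hy hy' hadj
      have h2 : (wordLength (gens m) x : ℤ) - d ≤ wordLength (gens m) y := by omega
      have h3 : (n : ℤ) - 16 ≤ 2 * d := by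
        have : ((m : ℤ) + 3) * (2 * n) = (2 * m + 6) * n := by ring
        linarith
      omega
    omega
  · obtain ⟨f, hf1, hf2⟩ := small_weight hm2 (2 * n) Z (by rw [abs_of_nonneg hZ3]; exact hZ4)
    have h := upper n x (by rw [hht]; simp) f (by rw [hXx, hf1]; push_cast; rfl)
    rw [hht, abs_zero, sub_zero] at h
    have h2 : (wordLength (gens m) x : ℤ) ≤ (m + 3) * n + 1 := by
      push_cast at hf2
      linarith
    exact_mod_cast h2

theorem unbounded (m : ℕ) (hm : 2 ≤ m) : ¬ BoundedRetreatDepth (gens m) := by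
  rintro ⟨D, hD⟩
  obtain ⟨g, hg, _⟩ := main m hm (2 * D + 17)
  have := hD g
  omega

end Pool.Agent.R649.BS
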