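import Mathlib
import Pool.Agent.R649.Defs

/-! Connections inside a set of vertices of a Cayley graph. -/

namespace Pool.Agent.R649

open SimpleGraph

universe u

variable {G : Type u} [Group G] {S : Set G}

/-- `x` and `y` are connected inside `C`. -/
def Conn (S : Set G) (C : Set G) (x y : G) : Prop :=
  ∃ (hx : x ∈ C) (hy : y ∈ C), ((mulCayley S).induce C).Reachable ⟨x, hx⟩ ⟨y, hy⟩

theorem mem_component {n : ℕ} {g h : G} : h ∈ component S n g ↔ Conn S (outside S n) g h := Iff.rfl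

theorem Conn.refl {C : Set G} {x : G} (hx : x ∈ C) : Conn S C x x := ⟨hx, hx, Reachable.refl _⟩

theorem Conn.symm {C : Set G} {x y : G} (h : Conn S C x y) : Conn S C y x := by
  obtain ⟨hx, hy, h⟩ := h
  exact ⟨hy, hx, h.symm⟩

theorem Conn.trans {C : Set G} {x y z : G} (h : Conn S C x y) (h' : Conn S C y z) :
    Conn S C x z := by
  obtain ⟨hx, hy, h⟩ := h
  obtain ⟨_, hz, h'⟩ := h'
  exact ⟨hx, hz, h.trans h'⟩

theorem Conn.step {C : Set G} {x y : G} (hx : x ∈ C) (hy : y ∈ C)
    (h : (mulCayley S).Adj x y) : Conn S C x y := by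
  refine ⟨hx, hy, Adj.reachable ?_⟩
  simpa using h

theorem Conn.gen {C : Set G} {x s : G} (hx : x ∈ C) (hy : x * s ∈ C)
    (h : s ∈ S ∨ s⁻¹ ∈ S) : Conn S C x (x * s) := by
  by_cases h1 : s = 1
  · subst h1
    rw [mul_one]
    exact Conn.refl hx
  · exact Conn.step hx hy (cadj_mul h h1)

theorem Conn.mono {C D : Set G} (hCD : C ⊆ D) {x y : G} (h : Conn S C x y) : Conn S D x y := by
  obtain ⟨hx, hy, ⟨p⟩⟩ := h
  have key : ∀ (a b : C) (_ : ((mulCayley S).induce C).Walk a b), Conn S D a b := by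
    intro a b q
    induction q with
    | nil => exact Conn.refl (hCD (Subtype.coe_prop _))
    | @cons u v w hadj q ih =>
      exact (Conn.step (hCD u.2) (hCD v.2) (by simpa using hadj)).trans ih
  exact key _ _ p

theorem Conn.mem_left {C : Set G} {x y : G} (h : Conn S C x y) : x ∈ C := h.1

theorem Conn.mem_right {C : Set G} {x y : G} (h : Conn S C x y) : y ∈ C := h.2.1

/-- An invariant along paths inside `C`. -/
theorem Conn.invariant {C : Set G} {x y : G} (h : Conn S C x y) (J : G → Prop)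
    (hJ : ∀ a b, a ∈ C → b ∈ C → (mulCayley S).Adj a b → J a → J b) (hx : J x) : J y := by
  obtain ⟨hx', hy, ⟨p⟩⟩ := h
  have key : ∀ (a b : C) (_ : ((mulCayley S).induce C).Walk a b), J a → J b := by
    intro a b q
    induction q with
    | nil => exact fun h => h
    | @cons u v w hadj q ih =>
      intro hu
      exact ih (hJ u v u.2 v.2 (by simpa using hadj) hu)
  exact key _ _ p hx

/-- A ray of different vertices shows that a component is infinite. -/
theorem component_infinite_of_ray {n : ℕ} (z : ℕ → G) (hz : Function.Injective z)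
    (h1 : ∀ i, n ≤ wordLength S (z i)) (h2 : ∀ i, (mulCayley S).Adj (z i) (z (i + 1))) :
    (component S n (z 0)).Infinite := by
  apply Set.Infinite.mono (s := Set.range z)
  · rintro _ ⟨i, rfl⟩
    rw [mem_component]
    induction i with
    | zero => exact Conn.refl (h1 0)
    | succ i ih => exact ih.trans (Conn.step (h1 i) (h1 (i + 1)) (h2 i))
  · exact Set.infinite_range_of_injective hz

theorem oneEnded_of [Infinite G] (h : ∀ F : Set G, F.Finite → ∃ C : Set G, C ⊆ Fᶜ ∧ Cᶜ.Finite ∧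
    ∀ x ∈ C, ∀ y ∈ C, Conn S C x y) : OneEnded S := by
  intro F hF
  obtain ⟨C, hC1, hC2, hC3⟩ := h F hF
  have hCinf : C.Infinite := by
    have := hC2.infinite_compl
    simpa using this
  obtain ⟨x0, hx0⟩ := hCinf.nonempty
  refine ⟨((mulCayley S).induce Fᶜ).connectedComponentMk ⟨x0, hC1 hx0⟩, ?_, ?_⟩
  · apply Set.Infinite.of_image (f := (Subtype.val : (Fᶜ : Set G) → G))
    apply hCinf.mono
    intro y hy
    obtain ⟨h1, h2, h3⟩ := (hC3 y hy x0 hx0).mono hC1
    refine ⟨⟨y, h1⟩, ?_, rfl⟩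
    rw [ConnectedComponent.mem_supp_iff, ConnectedComponent.eq]
    exact h3
  · intro D hD
    have hinf : ((Subtype.val : (Fᶜ : Set G) → G) '' D.supp).Infinite :=
      hD.image Subtype.val_injective.injOn
    obtain ⟨y, hy1, hy2⟩ := hinf.exists_notMem_finite hC2
    obtain ⟨y', hy', rfl⟩ := hy1
    have hyC : (y' : G) ∈ C := by simpa using hy2
    obtain ⟨h1, h2, h3⟩ := (hC3 y' hyC x0 hx0).mono hC1
    rw [ConnectedComponent.mem_supp_iff] at hy'
    rw [← hy', ConnectedComponent.eq]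
    exact h3

theorem connectedSpheres_of (r : ℕ)
    (h : ∀ n, (sphereInf S n r).Nonempty ∧ ∀ x ∈ sphereInf S n r, ∀ y ∈ sphereInf S n r,
      Conn S (sphereInf S n r) x y) : ConnectedSpheres S := by
  refine ⟨r, fun n => ?_⟩
  obtain ⟨⟨x0, hx0⟩, h2⟩ := h n
  haveI : Nonempty (sphereInf S n r) := ⟨⟨x0, hx0⟩⟩
  refine ⟨?_⟩
  rintro ⟨x, hx⟩ ⟨y, hy⟩
  obtain ⟨_, _, h3⟩ := h2 x hx y hy
  exact h3

theorem conn_of_connected {n r : ℕ} (h : ((mulCayley S).induce (sphereInf S n r)).Connected)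
    {x y : G} (hx : x ∈ sphereInf S n r) (hy : y ∈ sphereInf S n r) :
    Conn S (sphereInf S n r) x y := ⟨hx, hy, h.preconnected _ _⟩

end Pool.Agent.R649
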