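import Mathlib
import Pool.Agent.R649.Conn

/-! Isomorphisms preserving the symmetrised generating sets preserve the retreat depth. -/

namespace Pool.Agent.R649

open SimpleGraph

universe u v

variable {G : Type u} [Group G] {G' : Type v} [Group G'] {S : Set G} {S' : Set G'}

theorem adj_transfer (e : G ≃* G') (h : ∀ s, (s ∈ S ∨ s⁻¹ ∈ S) ↔ (e s ∈ S' ∨ (e s)⁻¹ ∈ S'))
    (a b : G) : (mulCayley S').Adj (e a) (e b) ↔ (mulCayley S).Adj a b := by
  rw [cadj, cadj, ← map_inv, ← map_mul, h]
  simp

/-- The induced isomorphism of Cayley graphs. -/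
def cayIso (e : G ≃* G') (h : ∀ s, (s ∈ S ∨ s⁻¹ ∈ S) ↔ (e s ∈ S' ∨ (e s)⁻¹ ∈ S')) :
    mulCayley S ≃g mulCayley S' where
  toEquiv := e.toEquiv
  map_rel_iff' := by
    intro a b
    exact adj_transfer e h a b

theorem wl_transfer (e : G ≃* G') (h : ∀ s, (s ∈ S ∨ s⁻¹ ∈ S) ↔ (e s ∈ S' ∨ (e s)⁻¹ ∈ S'))
    (g : G) : wordLength S' (e g) = wordLength S g := by
  have hle : ∀ {G : Type u} [Group G] {G' : Type v} [Group G'] {S : Set G} {S' : Set G'}
      (e : G ≃* G') (h : ∀ s, (s ∈ S ∨ s⁻¹ ∈ S) ↔ (e s ∈ S' ∨ (e s)⁻¹ ∈ S')) (g : G),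
      (mulCayley S).Reachable 1 g → wordLength S' (e g) ≤ wordLength S g := by
    intro G _ G' _ S S' e h g hr
    obtain ⟨p, hp⟩ := hr.exists_walk_length_eq_dist
    unfold wordLength
    rw [← hp]
    have h2 := dist_le (p.map (cayIso e h).toHom)
    rw [Walk.length_map] at h2
    have e1 : (cayIso e h).toHom 1 = 1 := map_one e
    have e2 : (cayIso e h).toHom g = e g := rfl
    rw [e1, e2] at h2
    exact h2
  by_cases hr : (mulCayley S).Reachable 1 g
  · refine le_antisymm (hle e h g hr) ?_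
    have hr' : (mulCayley S').Reachable 1 (e g) := by
      have := hr.map (cayIso e h).toHom
      have e1 : (cayIso e h).toHom 1 = 1 := map_one e
      rw [e1] at this
      exact this
    obtain ⟨p, hp⟩ := hr'.exists_walk_length_eq_dist
    unfold wordLength
    rw [← hp]
    have h2 := dist_le (p.map (cayIso e h).symm.toHom)
    rw [Walk.length_map] at h2
    have e1 : (cayIso e h).symm.toHom 1 = 1 := map_one e.symm
    have e2 : (cayIso e h).symm.toHom (e g) = g := e.symm_apply_apply g
    rw [e1, e2] at h2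
    exact h2
  · have hr' : ¬ (mulCayley S').Reachable 1 (e g) := by
      intro hr'
      apply hr
      have := hr'.map (cayIso e h).symm.toHom
      have e1 : (cayIso e h).symm.toHom 1 = 1 := map_one e.symm
      have e2 : (cayIso e h).symm.toHom (e g) = g := e.symm_apply_apply g
      rw [e1, e2] at this
      exact this
    unfold wordLength
    rw [dist_eq_zero_of_not_reachable hr, dist_eq_zero_of_not_reachable hr']

theorem conn_transfer (e : G ≃* G') (h : ∀ s, (s ∈ S ∨ s⁻¹ ∈ S) ↔ (e s ∈ S' ∨ (e s)⁻¹ ∈ S'))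
    {C : Set G} {C' : Set G'} (hC : ∀ x ∈ C, e x ∈ C') {x y : G} (hxy : Conn S C x y) :
    Conn S' C' (e x) (e y) := by
  obtain ⟨hx, hy, ⟨p⟩⟩ := hxy
  have key : ∀ (a b : C) (_ : ((mulCayley S).induce C).Walk a b), Conn S' C' (e a) (e b) := by
    intro a b q
    induction q with
    | @nil a => exact Conn.refl (hC _ a.2)
    | @cons u v w hadj q ih =>
      exact (Conn.step (hC _ u.2) (hC _ v.2)
        ((adj_transfer e h _ _).2 (by simpa using hadj))).trans ih
  exact key _ _ p

theorem component_transfer (e : G ≃* G')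
    (h : ∀ s, (s ∈ S ∨ s⁻¹ ∈ S) ↔ (e s ∈ S' ∨ (e s)⁻¹ ∈ S')) (n : ℕ) (g : G) :
    component S' n (e g) = e '' component S n g := by
  have h' : ∀ s, (s ∈ S' ∨ s⁻¹ ∈ S') ↔ (e.symm s ∈ S ∨ (e.symm s)⁻¹ ∈ S) := by
    intro s
    rw [h]
    simp
  ext x
  constructor
  · intro hx
    refine ⟨e.symm x, ?_, by simp⟩
    have h2 := conn_transfer e.symm h' (C := outside S' n) (C' := outside S n) (by
      intro y hy
      show n ≤ wordLength S (e.symm y)
      rw [wl_transfer e.symm h']
      exact hy) hx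
    rw [MulEquiv.symm_apply_apply] at h2
    exact h2
  · rintro ⟨y, hy, rfl⟩
    exact conn_transfer e h (C := outside S n) (C' := outside S' n) (by
      intro y hy
      show n ≤ wordLength S' (e y)
      rw [wl_transfer e h]
      exact hy) hy

theorem rd_transfer (e : G ≃* G')
    (h : ∀ s, (s ∈ S ∨ s⁻¹ ∈ S) ↔ (e s ∈ S' ∨ (e s)⁻¹ ∈ S')) (g : G) :
    retreatDepth S' (e g) = retreatDepth S g := by
  unfold retreatDepth
  congr 1
  ext d
  show (component S' (wordLength S' (e g) - d) (e g)).Infinite ↔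
    (component S (wordLength S g - d) g).Infinite
  rw [wl_transfer e h, component_transfer e h]
  exact Set.infinite_image_iff e.injective.injOn

end Pool.Agent.R649
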