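import Mathlib
import Pool.Agent.R649.BSMain
import Pool.Agent.R649.Transfer

/-! The groups `G_{p,q} = ℤ[p/q, q/p] ⋊ ℤ`. -/

namespace Pool.Agent.R649.GPQ

open SimpleGraph Pool.Agent.R649

/-- The ring `ℤ[p/q, q/p]` as a subring of `ℚ`. -/
def ringA (p q : ℕ+) : Subring ℚ := Subring.closure {(p : ℚ) / q, (q : ℚ) / p}

/-- The underlying type of `G_{p,q}`: pairs `(x, k)` with `x` in `ℤ[p/q, q/p]` and `k` in `ℤ`. -/
@[ext] structure GG (p q : ℕ+) where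
  /-- the first coordinate -/
  x : ℚ
  /-- the second coordinate -/
  k : ℤ
  mem : x ∈ ringA p q

variable {p q : ℕ+}

theorem pq_ne : ((p : ℚ) / q) ≠ 0 := by
  have h1 : (0 : ℚ) < (p : ℚ) := by exact_mod_cast p.pos
  have h2 : (0 : ℚ) < (q : ℚ) := by exact_mod_cast q.pos
  positivity

theorem zpow_mem (k : ℤ) : ((p : ℚ) / q) ^ k ∈ ringA p q := by
  have h1 : ((p : ℚ) / q) ∈ ringA p q := Subring.subset_closure (Or.inl rfl)
  have h2 : ((q : ℚ) / p) ∈ ringA p q := Subring.subset_closure (Or.inr rfl)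
  obtain ⟨n, rfl | rfl⟩ := k.eq_nat_or_neg
  · rw [zpow_natCast]
    exact Subring.pow_mem _ h1 n
  · rw [zpow_neg, zpow_natCast, ← inv_pow, inv_div]
    exact Subring.pow_mem _ h2 n

/-- The group `G_{p,q}`, with the product `(x, k) (y, l) = (x + (p/q)^k y, k + l)`. -/
instance : Group (GG p q) where
  mul g h := ⟨g.x + ((p : ℚ) / q) ^ g.k * h.x, g.k + h.k,
    add_mem g.mem (mul_mem (zpow_mem g.k) h.mem)⟩
  one := ⟨0, 0, zero_mem _⟩
  inv g := ⟨-(((p : ℚ) / q) ^ (-g.k) * g.x), -g.k, neg_mem (mul_mem (zpow_mem _) g.mem)⟩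
  mul_assoc g h k := by
    apply GG.ext
    · show (g.x + ((p : ℚ) / q) ^ g.k * h.x) + ((p : ℚ) / q) ^ (g.k + h.k) * k.x =
        g.x + ((p : ℚ) / q) ^ g.k * (h.x + ((p : ℚ) / q) ^ h.k * k.x)
      rw [zpow_add₀ pq_ne]
      ring
    · show g.k + h.k + k.k = g.k + (h.k + k.k)
      ring
  one_mul g := by
    apply GG.ext
    · show 0 + ((p : ℚ) / q) ^ (0 : ℤ) * g.x = g.x
      simp
    · show 0 + g.k = g.k
      ring
  mul_one g := by
    apply GG.ext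
    · show g.x + ((p : ℚ) / q) ^ g.k * 0 = g.x
      simp
    · show g.k + 0 = g.k
      ring
  inv_mul_cancel g := by
    apply GG.ext
    · show -(((p : ℚ) / q) ^ (-g.k) * g.x) + ((p : ℚ) / q) ^ (-g.k) * g.x = 0
      ring
    · show -g.k + g.k = 0
      ring

theorem mul_x (g h : GG p q) : (g * h).x = g.x + ((p : ℚ) / q) ^ g.k * h.x := rfl

theorem mul_k (g h : GG p q) : (g * h).k = g.k + h.k := rfl

theorem inv_x (g : GG p q) : (g⁻¹).x = -(((p : ℚ) / q) ^ (-g.k) * g.x) := rfl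

theorem inv_k (g : GG p q) : (g⁻¹).k = -g.k := rfl

/-- The generator `a = (1, 0)`. -/
def ea (p q : ℕ+) : GG p q := ⟨1, 0, one_mem _⟩

/-- The generator `t = (0, 1)`. -/
def et (p q : ℕ+) : GG p q := ⟨0, 1, zero_mem _⟩

/-- The walk or switch generating set `S_1`. -/
def S1 (p q : ℕ+) : Set (GG p q) := {ea p q, (ea p q)⁻¹, et p q, (et p q)⁻¹}

theorem S1_symm (g : GG p q) : (g ∈ S1 p q ∨ g⁻¹ ∈ S1 p q) ↔
    g = ea p q ∨ g = (ea p q)⁻¹ ∨ g = et p q ∨ g = (et p q)⁻¹ := by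
  have h1 : g⁻¹ ∈ S1 p q ↔ g = (ea p q)⁻¹ ∨ g = ea p q ∨ g = (et p q)⁻¹ ∨ g = et p q := by
    show g⁻¹ = ea p q ∨ g⁻¹ = (ea p q)⁻¹ ∨ g⁻¹ = et p q ∨ g⁻¹ = (et p q)⁻¹ ↔ _
    rw [inv_inj, inv_inj, inv_eq_iff_eq_inv, inv_eq_iff_eq_inv]
  have h2 : g ∈ S1 p q ↔ g = ea p q ∨ g = (ea p q)⁻¹ ∨ g = et p q ∨ g = (et p q)⁻¹ := Iff.rfl
  rw [h1, h2]
  tauto

/-- Exchanging `p` and `q`. -/
def swap (p q : ℕ+) : GG p q ≃* GG q p where
  toFun g := ⟨g.x, -g.k, by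
    have := g.mem
    unfold ringA at this ⊢
    rwa [Set.pair_comm]⟩
  invFun g := ⟨g.x, -g.k, by
    have := g.mem
    unfold ringA at this ⊢
    rwa [Set.pair_comm]⟩
  left_inv g := by
    apply GG.ext
    · rfl
    · show - -g.k = g.k
      ring
  right_inv g := by
    apply GG.ext
    · rfl
    · show - -g.k = g.k
      ring
  map_mul' g h := by
    apply GG.ext
    · show g.x + ((p : ℚ) / q) ^ g.k * h.x = g.x + ((q : ℚ) / p) ^ (-g.k) * h.x
      rw [zpow_neg, ← inv_zpow, inv_div]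
    · show -(g.k + h.k) = -g.k + -h.k
      ring

theorem swap_gens (g : GG p q) :
    (g ∈ S1 p q ∨ g⁻¹ ∈ S1 p q) ↔ (swap p q g ∈ S1 q p ∨ (swap p q g)⁻¹ ∈ S1 q p) := by
  rw [S1_symm, S1_symm]
  have h1 : swap p q (ea p q) = ea q p := by
    apply GG.ext
    · rfl
    · show -(0 : ℤ) = 0
      ring
  have h2 : swap p q (et p q) = (et q p)⁻¹ := by
    apply GG.ext
    · show (0 : ℚ) = -(((q : ℚ) / p) ^ (-(1 : ℤ)) * 0)
      simp
    · rfl
  have h3 : ∀ y, swap p q g = swap p q y ↔ g = y := fun y => (swap p q).injective.eq_iff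
  rw [← h3 (ea p q), ← h3 (ea p q)⁻¹, ← h3 (et p q), ← h3 (et p q)⁻¹, map_inv, map_inv, h1, h2,
    inv_inv]
  tauto

/-- `BS(1,m)` is `G_{m,1}`. -/
theorem exists_form (m : ℕ+) {x : ℚ} (hx : x ∈ ringA m 1) :
    ∃ (i : ℕ) (j : ℤ), (m : ℚ) ^ i * x = j := by
  have hm0 : (m : ℚ) ≠ 0 := by
    have : (0 : ℚ) < (m : ℚ) := by exact_mod_cast m.pos
    exact this.ne'
  unfold ringA at hx
  induction hx using Subring.closure_induction with
  | mem x hx =>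
    rcases hx with rfl | hx
    · exact ⟨0, m, by simp⟩
    · rw [Set.mem_singleton_iff] at hx
      subst hx
      exact ⟨1, 1, by simp⟩
  | zero => exact ⟨0, 0, by simp⟩
  | one => exact ⟨0, 1, by simp⟩
  | add x y _ _ h1 h2 =>
    obtain ⟨i, j, h1⟩ := h1
    obtain ⟨i', j', h2⟩ := h2
    refine ⟨i + i', m ^ i' * j + m ^ i * j', ?_⟩
    push_cast
    rw [← h1, ← h2, pow_add]
    ring
  | neg x _ h1 =>
    obtain ⟨i, j, h1⟩ := h1
    exact ⟨i, -j, by push_cast; rw [← h1]; ring⟩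
  | mul x y _ _ h1 h2 =>
    obtain ⟨i, j, h1⟩ := h1
    obtain ⟨i', j', h2⟩ := h2
    refine ⟨i + i', j * j', ?_⟩
    push_cast
    rw [← h1, ← h2, pow_add]
    ring

open BS in
theorem X_mem (m : ℕ+) [hm : Fact (2 ≤ (m : ℕ))] (g : BS (m : ℕ)) : X g ∈ ringA m 1 := by
  obtain ⟨i, k, j, rfl⟩ := normal_form g
  rw [X_mul, X_mul, X_gt_pow, inv_pow, X_inv, X_gt_pow, X_ga_zpow]
  simp only [mul_zero, add_zero, zero_add]
  apply mul_mem
  · have := zpow_mem (p := m) (q := 1) (ht ((gt (m : ℕ)) ^ i)⁻¹)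
    simpa using this
  · exact intCast_mem _ j

open BS in
/-- The isomorphism. -/
noncomputable def isoBS (m : ℕ+) [hm : Fact (2 ≤ (m : ℕ))] : BS (m : ℕ) ≃* GG m 1 :=
  MulEquiv.ofBijective
    ({ toFun := fun g => ⟨X g, ht g, X_mem m g⟩
       map_one' := by
        apply GG.ext
        · exact X_one
        · exact ht_one
       map_mul' := fun g h => by
        apply GG.ext
        · show X (g * h) = X g + ((m : ℚ) / ((1 : ℕ+) : ℕ)) ^ (ht g) * X h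
          rw [X_mul]
          simp
        · exact ht_mul g h } : BS (m : ℕ) →* GG m 1)
    (by
      constructor
      · intro g h hgh
        have h1 : X g = X h := congrArg GG.x hgh
        have h2 : ht g = ht h := congrArg GG.k hgh
        exact ext_of h2 h1
      · rintro ⟨x, k, hx⟩
        obtain ⟨i, j, hij⟩ := exists_form m hx
        have hm0 := m_ne (m := (m : ℕ))
        refine ⟨(gt (m : ℕ) ^ i)⁻¹ * ga (m : ℕ) ^ j * gt (m : ℕ) ^ ((i : ℤ) + k), ?_⟩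
        have hX0 : ∀ l : ℤ, X (gt (m : ℕ) ^ l) = 0 := by
          intro l
          obtain ⟨n, rfl | rfl⟩ := l.eq_nat_or_neg
          · rw [zpow_natCast, X_gt_pow]
          · rw [zpow_neg, zpow_natCast, X_inv, X_gt_pow]; simp
        apply GG.ext
        · show X _ = x
          rw [X_mul, X_mul, hX0, X_inv, X_gt_pow, X_ga_zpow, ht_inv, ht_pow, ht_gt]
          have hp : ((m : ℕ) : ℚ) ^ (-((i : ℤ) * 1)) = (((m : ℕ) : ℚ) ^ i)⁻¹ := by
            rw [mul_one, zpow_neg, zpow_natCast]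
          rw [hp, ← hij]
          have : ((m : ℕ) : ℚ) ^ i ≠ 0 := pow_ne_zero _ hm0
          field_simp
          ring
        · show ht _ = k
          simp)

open BS in
theorem isoBS_gens (m : ℕ+) [hm : Fact (2 ≤ (m : ℕ))] (g : BS (m : ℕ)) :
    (g ∈ gens (m : ℕ) ∨ g⁻¹ ∈ gens (m : ℕ)) ↔
      (isoBS m g ∈ S1 m 1 ∨ (isoBS m g)⁻¹ ∈ S1 m 1) := by
  rw [S1_symm]
  have h1 : isoBS m (ga (m : ℕ)) = ea m 1 := by
    apply GG.ext
    · exact X_ga
    · exact ht_ga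
  have h2 : isoBS m (gt (m : ℕ)) = et m 1 := by
    apply GG.ext
    · exact X_gt
    · exact ht_gt
  have h3 : ∀ y, isoBS m g = isoBS m y ↔ g = y := fun y => (isoBS m).injective.eq_iff
  rw [← h1, ← h2, ← map_inv, ← map_inv, h3, h3, h3, h3]
  show (g = ga (m : ℕ) ∨ g = gt (m : ℕ)) ∨ (g⁻¹ = ga (m : ℕ) ∨ g⁻¹ = gt (m : ℕ)) ↔ _
  rw [inv_eq_iff_eq_inv, inv_eq_iff_eq_inv]
  tauto

/-- The statement for one pair. -/
def Lin (S : Set (GG p q)) (M : ℕ) : Prop :=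
  ∀ n : ℕ, ∃ g : GG p q, n ≤ 2 * retreatDepth S g + 16 ∧ wordLength S g ≤ (M + 3) * n + 1

theorem lin_m1 (m : ℕ+) (hm : 2 ≤ (m : ℕ)) : Lin (S1 m 1) m := by
  haveI : Fact (2 ≤ (m : ℕ)) := ⟨hm⟩
  intro n
  obtain ⟨g, hg1, hg2⟩ := BS.main (m : ℕ) hm n
  refine ⟨isoBS m g, ?_, ?_⟩
  · rw [rd_transfer (isoBS m) (isoBS_gens m)]
    exact hg1
  · rw [wl_transfer (isoBS m) (isoBS_gens m)]
    exact hg2

theorem lin_1m (m : ℕ+) (hm : 2 ≤ (m : ℕ)) : Lin (S1 1 m) m := by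
  intro n
  obtain ⟨g, hg1, hg2⟩ := lin_m1 m hm n
  refine ⟨swap m 1 g, ?_, ?_⟩
  · rw [rd_transfer (swap m 1) swap_gens]
    exact hg1
  · rw [wl_transfer (swap m 1) swap_gens]
    exact hg2

theorem not_bounded_of_lin {S : Set (GG p q)} {M : ℕ} (h : Lin S M) :
    ¬ BoundedRetreatDepth S := by
  rintro ⟨D, hD⟩
  obtain ⟨g, hg, _⟩ := h (2 * D + 17)
  have := hD g
  omega

end Pool.Agent.R649.GPQ
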