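import Mathlib
import Pool.Agent.R649.Conn

/-! Lamplighter groups `Z_2 wr H` with the switch-walk-switch generators. -/

namespace Pool.Agent.R649.Lamp

open SimpleGraph Pool.Agent.R649
open scoped Pointwise symmDiff

variable {H : Type} [Group H] [DecidableEq H]

/-- The underlying type of `Z_2 wr H`: `lamps` is the finite set of lit lamps, `pos` the position
of the lamplighter. -/
@[ext] structure LG (H : Type) where
  /-- the lit lamps -/
  lamps : Finset H
  /-- the position -/
  pos : H

/-- The wreath product `Z_2 wr H`. -/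
instance : Group (LG H) where
  mul g h := ⟨g.lamps ∆ (g.pos • h.lamps), g.pos * h.pos⟩
  one := ⟨∅, 1⟩
  inv g := ⟨g.pos⁻¹ • g.lamps, g.pos⁻¹⟩
  mul_assoc g h k := by
    show (⟨(g.lamps ∆ (g.pos • h.lamps)) ∆ ((g.pos * h.pos) • k.lamps), g.pos * h.pos * k.pos⟩ :
      LG H) = ⟨g.lamps ∆ (g.pos • (h.lamps ∆ (h.pos • k.lamps))), g.pos * (h.pos * k.pos)⟩
    rw [Finset.smul_finset_symmDiff, symmDiff_assoc, mul_smul, mul_assoc]
  one_mul g := by
    show (⟨∅ ∆ ((1 : H) • g.lamps), 1 * g.pos⟩ : LG H) = g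
    rw [one_smul, one_mul]
    ext1
    · exact bot_symmDiff _
    · rfl
  mul_one g := by
    show (⟨g.lamps ∆ (g.pos • ∅), g.pos * 1⟩ : LG H) = g
    rw [Finset.smul_finset_empty, mul_one]
    ext1
    · exact symmDiff_bot _
    · rfl
  inv_mul_cancel g := by
    show (⟨(g.pos⁻¹ • g.lamps) ∆ (g.pos⁻¹ • g.lamps), g.pos⁻¹ * g.pos⟩ : LG H) = ⟨∅, 1⟩
    rw [symmDiff_self, inv_mul_cancel]
    rfl

theorem mk_mul (A B : Finset H) (p q : H) :
    (⟨A, p⟩ * ⟨B, q⟩ : LG H) = ⟨A ∆ (p • B), p * q⟩ := rfl

theorem mk_inv (A : Finset H) (p : H) : (⟨A, p⟩ : LG H)⁻¹ = ⟨p⁻¹ • A, p⁻¹⟩ := rfl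

theorem mk_one : (1 : LG H) = ⟨∅, 1⟩ := rfl

omit [Group H] in
theorem sd_empty (A : Finset H) : A ∆ ∅ = A := symmDiff_bot A

/-- The position, as a homomorphism. -/
def posHom : LG H →* H where
  toFun := LG.pos
  map_one' := rfl
  map_mul' _ _ := rfl

/-- The switch-walk-switch generators for the set `T` of moves. -/
def sws (T : Set H) : Set (LG H) := {g | g.pos ∈ T ∧ g.lamps ⊆ {1, g.pos}}

theorem sws_or {T : Set H} {g : LG H} :
    (g ∈ sws T ∨ g⁻¹ ∈ sws T) ↔ (g.pos ∈ T ∨ g.pos⁻¹ ∈ T) ∧ g.lamps ⊆ {1, g.pos} := by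
  have h : ∀ (A : Finset H) (p : H), p⁻¹ • A ⊆ {1, p⁻¹} ↔ A ⊆ {1, p} := by
    intro A p
    constructor
    · intro h x hx
      have : p⁻¹ * x ∈ p⁻¹ • A := Finset.mem_image_of_mem _ hx
      have := h this
      simp only [Finset.mem_insert, Finset.mem_singleton] at this ⊢
      rcases this with h | h
      · right
        rw [inv_mul_eq_one] at h
        exact h.symm
      · left
        simpa using h
    · intro h x hx
      obtain ⟨y, hy, rfl⟩ := Finset.mem_smul_finset.1 hx
      have := h hy
      simp only [Finset.mem_insert, Finset.mem_singleton] at this ⊢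
      rcases this with rfl | rfl
      · right; simp
      · left; simp
  obtain ⟨A, p⟩ := g
  rw [mk_inv]
  simp only [sws, Set.mem_ofPred_eq]
  rw [h]
  tauto

/-- Adjacency for the switch-walk-switch generators. -/
theorem adj_iff {T : Set H} (h1 : (1 : H) ∉ T) {A A' : Finset H} {p p' : H} :
    (mulCayley (sws T)).Adj (⟨A, p⟩ : LG H) ⟨A', p'⟩ ↔
      (mulCayley T).Adj p p' ∧ A ∆ A' ⊆ {p, p'} := by
  rw [cadj, cadj, sws_or]
  have e : (⟨A, p⟩ : LG H)⁻¹ * ⟨A', p'⟩ = ⟨p⁻¹ • (A ∆ A'), p⁻¹ * p'⟩ := by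
    rw [mk_inv, mk_mul, Finset.smul_finset_symmDiff]
  rw [e]
  have h : p⁻¹ • (A ∆ A') ⊆ {1, p⁻¹ * p'} ↔ A ∆ A' ⊆ {p, p'} := by
    constructor
    · intro h x hx
      have : p⁻¹ * x ∈ p⁻¹ • (A ∆ A') := Finset.mem_image_of_mem _ hx
      have := h this
      simp only [Finset.mem_insert, Finset.mem_singleton] at this ⊢
      rcases this with h | h
      · left
        rw [inv_mul_eq_one] at h
        exact h.symm
      · right
        simpa using h
    · intro h x hx
      obtain ⟨y, hy, rfl⟩ := Finset.mem_smul_finset.1 hx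
      have := h hy
      simp only [Finset.mem_insert, Finset.mem_singleton] at this ⊢
      rcases this with rfl | rfl
      · left; simp
      · right; simp
  simp only
  rw [h]
  constructor
  · rintro ⟨h1, h2, h3⟩
    refine ⟨⟨?_, h2⟩, h3⟩
    intro he
    subst he
    simp only [inv_mul_cancel, inv_one] at h2
    tauto
  · rintro ⟨⟨h1, h2⟩, h3⟩
    refine ⟨?_, h2, h3⟩
    intro he
    apply h1
    exact congrArg LG.pos he

theorem adj_pos {T : Set H} (h1 : (1 : H) ∉ T) {g g' : LG H}
    (h : (mulCayley (sws T)).Adj g g') : (mulCayley T).Adj g.pos g'.pos := by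
  obtain ⟨A, p⟩ := g
  obtain ⟨A', p'⟩ := g'
  exact ((adj_iff h1).1 h).1

theorem mem_of_adj {T : Set H} (h1 : (1 : H) ∉ T) {g g' : LG H}
    (h : (mulCayley (sws T)).Adj g g') {x : H} (hx : x ∈ g'.lamps) :
    x ∈ g.lamps ∨ x = g.pos ∨ x = g'.pos := by
  obtain ⟨A, p⟩ := g
  obtain ⟨A', p'⟩ := g'
  have h2 := ((adj_iff h1).1 h).2
  by_cases hA : x ∈ A
  · exact Or.inl hA
  · right
    have := h2 (Finset.mem_symmDiff.2 (Or.inr ⟨hx, hA⟩))
    simpa using this

theorem sws_gen {T : Set H} (hT : Subgroup.closure T = ⊤) (hne : T.Nonempty) :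
    Subgroup.closure (sws T) = ⊤ := by
  rw [eq_top_iff]
  -- walking
  have hwalk : ∀ p : H, (⟨∅, p⟩ : LG H) ∈ Subgroup.closure (sws T) := by
    intro p
    have hp : p ∈ Subgroup.closure T := by rw [hT]; trivial
    induction hp using Subgroup.closure_induction with
    | mem x hx => exact Subgroup.subset_closure ⟨hx, Finset.empty_subset _⟩
    | one => exact one_mem _
    | mul x y _ _ ih1 ih2 =>
      have := mul_mem ih1 ih2
      rw [mk_mul] at this
      simpa using this
    | inv x _ ih =>
      have := inv_mem ih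
      rw [mk_inv] at this
      simpa using this
  have hlamp : (⟨{1}, 1⟩ : LG H) ∈ Subgroup.closure (sws T) := by
    obtain ⟨t, ht⟩ := hne
    have h1 : (⟨{1}, t⟩ : LG H) ∈ Subgroup.closure (sws T) :=
      Subgroup.subset_closure ⟨ht, by simp⟩
    have h2 := mul_mem h1 (hwalk t⁻¹)
    rw [mk_mul, Finset.smul_finset_empty, sd_empty, mul_inv_cancel] at h2
    exact h2
  have hlampx : ∀ x : H, (⟨{x}, 1⟩ : LG H) ∈ Subgroup.closure (sws T) := by
    intro x
    have h := mul_mem (mul_mem (hwalk x) hlamp) (hwalk x⁻¹)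
    rw [mk_mul, mk_mul] at h
    simpa using h
  rintro ⟨A, p⟩ -
  have hA : (⟨A, 1⟩ : LG H) ∈ Subgroup.closure (sws T) := by
    induction A using Finset.induction_on with
    | empty => exact one_mem _
    | insert x A hx ih =>
      have h := mul_mem (hlampx x) ih
      rw [mk_mul, one_smul, one_mul] at h
      have e : ({x} : Finset H) ∆ A = insert x A := by
        ext y
        simp only [Finset.mem_symmDiff, Finset.mem_singleton, Finset.mem_insert]
        by_cases hy : y = x
        · subst hy; simp [hx]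
        · simp [hy]
      rw [e] at h
      exact h
  have h := mul_mem hA (hwalk p)
  rw [mk_mul, Finset.smul_finset_empty, sd_empty, one_mul] at h
  exact h

/-- Lifting a walk of the lamplighter, switching any set of lamps on the way. -/
theorem lift_walk {T : Set H} (h1 : (1 : H) ∉ T) (hT : Subgroup.closure T = ⊤)
    (hne : T.Nonempty) {x y : H} (w : (mulCayley T).Walk x y) :
    ∀ (A B : Finset H), (∀ z ∈ A ∆ B, z ∈ w.support) → (w.length = 0 → A = B) →
      (mulCayley (sws T)).dist (⟨A, x⟩ : LG H) ⟨B, y⟩ ≤ w.length := by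
  induction w with
  | nil =>
    intro A B _ h
    obtain rfl := h rfl
    simp
  | @cons u v w hadj q ih =>
    intro A B hAB _
    have hconn := cay_connected (sws_gen hT hne)
    -- the lamps switched in the first step
    obtain ⟨C, hC1, hC2, hC3⟩ : ∃ C : Finset H, C ⊆ {u, v} ∧
        (∀ z ∈ (A ∆ C) ∆ B, z ∈ q.support) ∧ (q.length = 0 → A ∆ C = B) := by
      by_cases hq : q.length = 0
      · refine ⟨A ∆ B, ?_, ?_, ?_⟩
        · intro z hz
          have := hAB z hz
          rw [Walk.support_cons, List.mem_cons] at this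
          rcases this with rfl | h
          · simp
          · cases q with
            | nil => simp at h; simp [h]
            | cons _ _ => simp at hq
        · intro z hz
          rw [symmDiff_symmDiff_cancel_left, symmDiff_self] at hz
          simp at hz
        · intro _
          rw [symmDiff_symmDiff_cancel_left]
      · refine ⟨(A ∆ B) ∩ {u}, ?_, ?_, fun h => absurd h hq⟩
        · intro z hz
          simp only [Finset.mem_inter, Finset.mem_singleton] at hz
          simp [hz.2]
        · intro z hz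
          have hz' : z ∈ A ∆ B ∧ z ≠ u := by
            simp only [Finset.mem_symmDiff, Finset.mem_inter, Finset.mem_singleton] at hz ⊢
            tauto
          have := hAB z hz'.1
          rw [Walk.support_cons, List.mem_cons] at this
          rcases this with h | h
          · exact absurd h hz'.2
          · exact h
    have h2 := ih (A ∆ C) B hC2 hC3
    have h3 : (mulCayley (sws T)).Adj (⟨A, u⟩ : LG H) ⟨A ∆ C, v⟩ := by
      rw [adj_iff h1]
      refine ⟨hadj, ?_⟩
      rw [symmDiff_symmDiff_cancel_left]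
      exact hC1
    rw [Walk.length_cons]
    refine (hconn.dist_triangle (v := ⟨A ∆ C, v⟩)).trans ?_
    rw [dist_eq_one_iff_adj.2 h3]
    omega

end Pool.Agent.R649.Lamp
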