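import Mathlib
import Pool.Agent.R649.Lamp

/-! The Cayley graph of the free group of rank two as a rooted tree. -/

namespace Pool.Agent.R649.Tree

open SimpleGraph Pool.Agent.R649

/-- The free group of rank two. -/
abbrev F := FreeGroup (Fin 2)

/-- The free generators. -/
def T : Set F := {FreeGroup.of 0, FreeGroup.of 1}

/-- Letters. -/
abbrev Lt := Fin 2 × Bool

/-- The reduced word of the inverse: the path from `p` to the root. -/
def u (p : F) : List Lt := (p⁻¹).toWord

theorem T_gen : Subgroup.closure T = ⊤ := by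
  have h : T = Set.range (FreeGroup.of : Fin 2 → F) := by
    ext x
    constructor
    · rintro (rfl | hx)
      · exact ⟨0, rfl⟩
      · rw [Set.mem_singleton_iff] at hx
        exact ⟨1, hx.symm⟩
    · rintro ⟨i, rfl⟩
      fin_cases i
      · exact Or.inl rfl
      · exact Or.inr rfl
  rw [h]
  exact FreeGroup.closure_range_of _

theorem of_mem (i : Fin 2) : FreeGroup.of i ∈ T := by
  fin_cases i
  · exact Or.inl rfl
  · exact Or.inr rfl

theorem T_ne : T.Nonempty := ⟨_, of_mem 0⟩

theorem one_notMem : (1 : F) ∉ T := by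
  rintro (h | h)
  · exact FreeGroup.one_ne_of _ h
  · exact FreeGroup.one_ne_of _ h

theorem u_one : u 1 = [] := by simp [u]

theorem u_inj {p q : F} (h : u p = u q) : p = q := by
  have := FreeGroup.toWord_injective h
  exact inv_injective this

/-- The move which adds the letter `c` in front of `u p` or cancels. -/
def mv (c : Lt) : F := FreeGroup.mk [(c.1, !c.2)]

theorem mv_mem (c : Lt) : mv c ∈ T ∨ (mv c)⁻¹ ∈ T := by
  obtain ⟨i, b⟩ := c
  cases b
  · left
    exact of_mem i
  · right
    have : (mv (i, true))⁻¹ = FreeGroup.of i := by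
      simp [mv, FreeGroup.inv_mk, FreeGroup.invRev, FreeGroup.of]
    rw [this]
    exact of_mem i

theorem exists_mv {s : F} (hs : s ∈ T ∨ s⁻¹ ∈ T) : ∃ c, s = mv c := by
  have h1 : ∀ i : Fin 2, FreeGroup.of i = mv (i, false) := fun i => rfl
  have h2 : ∀ i : Fin 2, (FreeGroup.of i)⁻¹ = mv (i, true) := by
    intro i
    simp [mv, FreeGroup.inv_mk, FreeGroup.invRev, FreeGroup.of]
  rcases hs with (rfl | hs) | (hs | hs)
  · exact ⟨_, h1 0⟩
  · rw [Set.mem_singleton_iff] at hs
    rw [hs]
    exact ⟨_, h1 1⟩
  · rw [← inv_inv s, hs]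
    exact ⟨_, h2 0⟩
  · rw [Set.mem_singleton_iff] at hs
    rw [← inv_inv s, hs]
    exact ⟨_, h2 1⟩

theorem u_mv (p : F) (c : Lt) : u (p * mv c) = FreeGroup.reduce (c :: u p) := by
  unfold u
  rw [mul_inv_rev, FreeGroup.toWord_mul]
  have : (mv c)⁻¹.toWord = [c] := by
    simp [mv, FreeGroup.inv_mk, FreeGroup.invRev]
  rw [this]
  rfl

theorem u_reduced (p : F) : FreeGroup.reduce (u p) = u p := FreeGroup.reduce_toWord _

theorem u_mv_nil (p : F) (c : Lt) (h : u p = []) : u (p * mv c) = [c] := by
  rw [u_mv, h]
  rfl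

theorem u_mv_cons (p : F) (c d : Lt) (L : List Lt) (h : u p = d :: L) :
    u (p * mv c) = if c.1 = d.1 ∧ c.2 = !d.2 then L else c :: d :: L := by
  have hr := u_reduced p
  rw [h] at hr
  rw [u_mv, h, FreeGroup.reduce.cons, hr]

theorem adj_cases {p q : F} (h : (mulCayley T).Adj p q) :
    (∃ c, u q = c :: u p) ∨ (∃ c, u p = c :: u q) := by
  obtain ⟨_, hs⟩ := cadj.1 h
  obtain ⟨c, hc⟩ := exists_mv hs
  have e : q = p * mv c := by rw [← hc]; group
  rw [e]
  rcases hu : u p with _ | ⟨d, L⟩
  · left
    exact ⟨c, by rw [u_mv_nil p c hu]⟩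
  · rw [u_mv_cons p c d L hu]
    split_ifs
    · right
      exact ⟨d, rfl⟩
    · left
      exact ⟨c, rfl⟩

theorem adj_mv (p : F) (c : Lt) : (mulCayley T).Adj p (p * mv c) := by
  apply cadj_mul (mv_mem c)
  intro h
  rcases mv_mem c with h2 | h2
  · rw [h] at h2
    exact one_notMem h2
  · rw [h, inv_one] at h2
    exact one_notMem h2

theorem parent (p : F) (c : Lt) (L : List Lt) (h : u p = c :: L) :
    ∃ q, u q = L ∧ (mulCayley T).Adj p q := by
  refine ⟨p * mv (c.1, !c.2), ?_, adj_mv _ _⟩
  rw [u_mv_cons p _ c L h, if_pos ⟨rfl, rfl⟩]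

theorem child (p : F) (c : Lt) (L : List Lt) (h : u p = c :: L) :
    ∃ q, u q = c :: u p ∧ (mulCayley T).Adj p q := by
  refine ⟨p * mv c, ?_, adj_mv _ _⟩
  rw [u_mv_cons p _ c L h, if_neg, h]
  rintro ⟨_, h2⟩
  cases hc : c.2 <;> simp [hc] at h2

theorem exists_child (p : F) : ∃ c q, u q = c :: u p ∧ (mulCayley T).Adj p q := by
  rcases hu : u p with _ | ⟨d, L⟩
  · exact ⟨(0, false), p * mv (0, false), by rw [u_mv_nil p _ hu], adj_mv _ _⟩
  · obtain ⟨q, hq1, hq2⟩ := child p d L hu
    exact ⟨d, q, by rw [hq1, hu], hq2⟩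

theorem u_pow (i : Fin 2) (k : ℕ) : u (FreeGroup.of i ^ k) = List.replicate k (i, false) := by
  unfold u
  rw [FreeGroup.toWord_inv, FreeGroup.toWord_of_pow]
  simp [FreeGroup.invRev]

/-- Every suffix of `u p` is some `u q`. -/
theorem suffix_exists (p : F) (L : List Lt) (h : L <:+ u p) : ∃ q, u q = L := by
  obtain ⟨M, hM⟩ := h
  induction M generalizing p with
  | nil => exact ⟨p, by simpa using hM.symm⟩
  | cons c M ih =>
    obtain ⟨q, hq, _⟩ := parent p c (M ++ L) (by rw [← hM]; rfl)
    exact ih q (by rw [hq])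

theorem tball_finite (N : ℕ) : {p : F | (u p).length ≤ N}.Finite := by
  apply Set.Finite.of_finite_image (f := u)
  · exact (List.finite_length_le Lt N).subset (by rintro _ ⟨p, hp, rfl⟩; exact hp)
  · intro p _ q _ h
    exact u_inj h

/-- Ball of radius `N` as a finset. -/
noncomputable def tball (N : ℕ) : Finset F := (tball_finite N).toFinset

theorem mem_tball {N : ℕ} {p : F} : p ∈ tball N ↔ (u p).length ≤ N := by
  simp [tball]

/-- Sets of words closed under removing the first letter, and consisting of reduced words. -/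
structure Good (V : Finset (List Lt)) : Prop where
  nil_mem : [] ∈ V
  tail_mem : ∀ c L, c :: L ∈ V → L ∈ V
  red : ∀ L ∈ V, ∃ p, u p = L

theorem Good.suffix {V : Finset (List Lt)} (hV : Good V) {L M : List Lt} (h : L <:+ M)
    (hM : M ∈ V) : L ∈ V := by
  obtain ⟨K, rfl⟩ := h
  induction K with
  | nil => simpa using hM
  | cons c K ih => exact ih (hV.tail_mem c _ hM)

/-- The tour. -/
theorem tour : ∀ (n : ℕ) (V : Finset (List Lt)), V.card = n + 1 → Good V → ∀ p, u p ∈ V →
    ∃ w : (mulCayley T).Walk 1 p, w.length + (u p).length = 2 * n ∧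
      ∀ q, u q ∈ V → q ∈ w.support := by
  intro n
  induction n with
  | zero =>
    intro V hc hV p hp
    obtain ⟨L, hL⟩ := Finset.card_eq_one.1 hc
    have h1 := hV.nil_mem
    rw [hL, Finset.mem_singleton] at h1 hp
    rw [← h1, ← u_one] at hp
    obtain rfl := u_inj hp
    refine ⟨Walk.nil, ?_, ?_⟩
    · simp [u_one]
    · intro q hq
      rw [hL, Finset.mem_singleton, ← h1, ← u_one] at hq
      obtain rfl := u_inj hq
      simp
  | succ n ih =>
    intro V hc hV p hp
    -- a longest word
    obtain ⟨v, hv, hmax⟩ := Finset.exists_max_image V List.length ⟨_, hV.nil_mem⟩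
    rcases v with _ | ⟨c, L⟩
    · exfalso
      have : V ⊆ {[]} := by
        intro x hx
        have := hmax x hx
        simp at this
        simp [this]
      have := Finset.card_le_card this
      simp at this
      omega
    · have hV' : Good (V.erase (c :: L)) := by
        refine ⟨?_, ?_, ?_⟩
        · exact Finset.mem_erase.2 ⟨by simp, hV.nil_mem⟩
        · intro d M h
          obtain ⟨h1, h2⟩ := Finset.mem_erase.1 h
          refine Finset.mem_erase.2 ⟨?_, hV.tail_mem d M h2⟩
          rintro rfl
          have := hmax _ h2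
          simp at this
        · intro M h
          exact hV.red M (Finset.mem_of_mem_erase h)
      have hcard : (V.erase (c :: L)).card = n + 1 := by
        rw [Finset.card_erase_of_mem hv, hc]
        rfl
      have hLmem : L ∈ V.erase (c :: L) := by
        refine Finset.mem_erase.2 ⟨?_, hV.tail_mem c L hv⟩
        intro h
        have := congrArg List.length h
        simp at this
      obtain ⟨x, hx⟩ := hV.red _ hv
      obtain ⟨y, hy, hxy⟩ := parent x c L hx
      by_cases hpx : p = x
      · subst hpx
        obtain ⟨w, hw1, hw2⟩ := ih _ hcard hV' y (by rw [hy]; exact hLmem)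
        refine ⟨w.append (Walk.cons hxy.symm Walk.nil), ?_, ?_⟩
        · rw [Walk.length_append, Walk.length_cons, Walk.length_nil, hx]
          rw [hy] at hw1
          simp only [List.length_cons]
          omega
        · intro q hq
          rw [Walk.mem_support_append_iff]
          by_cases hqv : u q = c :: L
          · right
            rw [← hx] at hqv
            obtain rfl := u_inj hqv
            simp
          · left
            exact hw2 q (Finset.mem_erase.2 ⟨hqv, hq⟩)
      · have hpV : u p ∈ V.erase (c :: L) := by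
          refine Finset.mem_erase.2 ⟨?_, hp⟩
          intro h
          rw [← hx] at h
          exact hpx (u_inj h)
        obtain ⟨w, hw1, hw2⟩ := ih _ hcard hV' p hpV
        have hyw : y ∈ w.support := hw2 y (by rw [hy]; exact hLmem)
        obtain ⟨q1, q2, hq12⟩ := Walk.mem_support_iff_exists_append.1 hyw
        refine ⟨q1.append (Walk.cons hxy.symm (Walk.cons hxy q2)), ?_, ?_⟩
        · rw [hq12, Walk.length_append] at hw1
          rw [Walk.length_append, Walk.length_cons, Walk.length_cons]
          omega
        · intro q hq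
          rw [Walk.mem_support_append_iff]
          by_cases hqv : u q = c :: L
          · right
            rw [← hx] at hqv
            obtain rfl := u_inj hqv
            simp
          · have h3 := hw2 q (Finset.mem_erase.2 ⟨hqv, hq⟩)
            rw [hq12, Walk.mem_support_append_iff] at h3
            rcases h3 with h3 | h3
            · exact Or.inl h3
            · right
              simp [h3]

end Pool.Agent.R649.Tree
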