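import Mathlib
import Pool.Agent.R649.Tree

/-! The lamplighter group over the free group of rank two: word metric, retreat depth,
spheres, one-endedness. -/

namespace Pool.Agent.R649.LampF

open SimpleGraph Pool.Agent.R649 Pool.Agent.R649.Lamp Pool.Agent.R649.Tree
open scoped Pointwise symmDiff

/-- The switch-walk-switch generators of `Z_2 wr F_2`. -/
abbrev SF : Set (LG F) := sws T

theorem SF_gen : Subgroup.closure SF = ⊤ := sws_gen T_gen T_ne

theorem SF_adj {A A' : Finset F} {p p' : F} :
    (mulCayley SF).Adj (⟨A, p⟩ : LG F) ⟨A', p'⟩ ↔ (mulCayley T).Adj p p' ∧ A ∆ A' ⊆ {p, p'} :=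
  adj_iff one_notMem

/-- The hull of a set of vertices. -/
def hull (A : Finset F) : Finset (List Lt) := A.biUnion fun x => (u x).tails.toFinset

theorem mem_hull {A : Finset F} {L : List Lt} : L ∈ hull A ↔ ∃ x ∈ A, L <:+ u x := by
  simp [hull]

theorem hull_good {A : Finset F} (hA : A.Nonempty) : Good (hull A) := by
  refine ⟨?_, ?_, ?_⟩
  · obtain ⟨x, hx⟩ := hA
    exact mem_hull.2 ⟨x, hx, List.nil_suffix⟩
  · intro c L h
    obtain ⟨x, hx, h⟩ := mem_hull.1 h
    exact mem_hull.2 ⟨x, hx, (List.suffix_cons c L).trans h⟩
  · intro L h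
    obtain ⟨x, hx, h⟩ := mem_hull.1 h
    exact suffix_exists x L h

theorem hull_mono {A B : Finset F} (h : A ⊆ B) : hull A ⊆ hull B := by
  intro L hL
  obtain ⟨x, hx, h'⟩ := mem_hull.1 hL
  exact mem_hull.2 ⟨x, h hx, h'⟩

theorem hull_sub {A : Finset F} {V : Finset (List Lt)} (hV : Good V) (h : ∀ x ∈ A, u x ∈ V) :
    hull A ⊆ V := by
  intro L hL
  obtain ⟨x, hx, h'⟩ := mem_hull.1 hL
  exact hV.suffix h' (h x hx)

/-- Lower bound for the length. -/
theorem lower (A : Finset F) (p : F) :
    2 * (hull (insert p A)).card ≤ wordLength SF (⟨A, p⟩ : LG F) + (u p).length + 2 := by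
  have key := wl_rec SF_gen
    (P := fun n g => ∃ V : Finset (List Lt), Good V ∧ u g.pos ∈ V ∧ (∀ x ∈ g.lamps, u x ∈ V) ∧
      2 * V.card ≤ n + (u g.pos).length + 2)
    ⟨{[]}, ⟨by simp, by simp, by
      intro L hL
      rw [Finset.mem_singleton] at hL
      exact ⟨1, by rw [u_one, hL]⟩⟩, by
      show u 1 ∈ _
      rw [u_one]
      simp, by
      intro x hx
      exact absurd hx (Finset.notMem_empty x), by simp⟩
    (by
      rintro n ⟨A, p⟩ ⟨B, s⟩ ⟨V, hV, hp, hA, hc⟩ hs
      simp only at hp hA hc
      rw [mk_mul]
      have hadj : (mulCayley SF).Adj (⟨A, p⟩ : LG F) (⟨A, p⟩ * ⟨B, s⟩) := by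
        apply cadj_mul hs
        intro h
        rw [mk_one, LG.mk.injEq] at h
        rw [h.1, h.2] at hs
        rcases hs with h | h
        · exact one_notMem h.1
        · exact one_notMem h.1
      rw [mk_mul] at hadj
      have hT := (SF_adj.1 hadj).1
      have hlamps : ∀ x ∈ A ∆ (p • B), x ∈ A ∨ x = p ∨ x = p * s := fun x hx =>
        mem_of_adj one_notMem hadj hx
      simp only
      rcases adj_cases hT with ⟨c, hc'⟩ | ⟨c, hc'⟩
      · -- moving away from the root
        by_cases hmem : u (p * s) ∈ V
        · refine ⟨V, hV, hmem, ?_, ?_⟩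
          · intro x hx
            rcases hlamps x hx with h | rfl | rfl
            · exact hA x h
            · exact hp
            · exact hmem
          · rw [hc', List.length_cons]
            omega
        · refine ⟨insert (u (p * s)) V, ?_, Finset.mem_insert_self _ _, ?_, ?_⟩
          · refine ⟨Finset.mem_insert_of_mem hV.nil_mem, ?_, ?_⟩
            · intro d L h
              rcases Finset.mem_insert.1 h with h | h
              · rw [hc', List.cons.injEq] at h
                rw [h.2]
                exact Finset.mem_insert_of_mem hp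
              · exact Finset.mem_insert_of_mem (hV.tail_mem d L h)
            · intro L h
              rcases Finset.mem_insert.1 h with h | h
              · exact ⟨_, h.symm⟩
              · exact hV.red L h
          · intro x hx
            rcases hlamps x hx with h | rfl | rfl
            · exact Finset.mem_insert_of_mem (hA x h)
            · exact Finset.mem_insert_of_mem hp
            · exact Finset.mem_insert_self _ _
          · rw [Finset.card_insert_of_notMem hmem, hc', List.length_cons]
            omega
      · -- moving towards the root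
        have hmem : u (p * s) ∈ V := by
          rw [hc'] at hp
          exact hV.tail_mem _ _ hp
        refine ⟨V, hV, hmem, ?_, ?_⟩
        · intro x hx
          rcases hlamps x hx with h | rfl | rfl
          · exact hA x h
          · exact hp
          · exact hmem
        · rw [hc', List.length_cons] at hc
          omega) (⟨A, p⟩ : LG F)
  obtain ⟨V, hV, hp, hA, hc⟩ := key
  have : hull (insert p A) ⊆ V := by
    apply hull_sub hV
    intro x hx
    rcases Finset.mem_insert.1 hx with rfl | h
    · exact hp
    · exact hA x h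
  have := Finset.card_le_card this
  unfold wordLength
  simp only at hc
  omega

/-- Upper bound for the length. -/
theorem upper (A : Finset F) (p : F) (V : Finset (List Lt)) (hV : Good V) (hp : u p ∈ V)
    (hA : ∀ x ∈ A, u x ∈ V) (hc : 2 ≤ V.card) :
    wordLength SF (⟨A, p⟩ : LG F) + (u p).length + 2 ≤ 2 * V.card := by
  obtain ⟨n, hn⟩ : ∃ n, V.card = n + 1 := ⟨V.card - 1, by omega⟩
  obtain ⟨w, hw1, hw2⟩ := tour n V hn hV p hp
  have hle : (u p).length ≤ n := by
    -- the suffixes of `u p` are different elements of `V`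
    have : (u p).tails.toFinset ⊆ V := by
      intro L hL
      rw [List.mem_toFinset, List.mem_tails] at hL
      exact hV.suffix hL hp
    have h2 := Finset.card_le_card this
    have h3 : ∀ L : List Lt, L.tails.toFinset.card = L.length + 1 := by
      intro L
      rw [List.toFinset_card_of_nodup]
      · simp
      · induction L with
        | nil => simp
        | cons c L ih =>
          rw [List.tails_cons, List.nodup_cons]
          refine ⟨?_, ih⟩
          rw [List.mem_tails]
          intro h
          have := h.length_le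
          simp at this
    rw [h3] at h2
    omega
  have h := lift_walk one_notMem T_gen T_ne w ∅ A (by
    intro z hz
    apply hw2
    apply hA
    have : (∅ : Finset F) ∆ A = A := bot_symmDiff A
    rwa [this] at hz) (by
    intro h0
    omega)
  have e : wordLength SF (⟨A, p⟩ : LG F) =
      (mulCayley (sws T)).dist (⟨∅, 1⟩ : LG F) ⟨A, p⟩ := rfl
  rw [e]
  omega

/-- All the lamps and the position are in the ball of radius `N`. -/
def Reg (N : ℕ) : Set (LG F) := {g | g.pos ∈ tball N ∧ g.lamps ⊆ tball N}

theorem reg_finite (N : ℕ) : (Reg N).Finite := by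
  have h : Reg N ⊆ (fun q : Finset F × F => (⟨q.1, q.2⟩ : LG F)) ''
      (((tball N).powerset ×ˢ tball N : Finset (Finset F × F)) : Set (Finset F × F)) := by
    rintro ⟨A, p⟩ ⟨h1, h2⟩
    refine ⟨(A, p), ?_, rfl⟩
    simp only [Finset.coe_product, Set.mem_prod, Finset.mem_coe, Finset.mem_powerset]
    exact ⟨h2, h1⟩
  exact (Set.Finite.image _ (Finset.finite_toSet _)).subset h

instance : Infinite F := by
  apply Infinite.of_injective (fun k : ℕ => (FreeGroup.of 0 : F) ^ k)
  intro i j h
  have := congrArg (fun x => (u x).length) h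
  simpa [u_pow] using this

instance : Infinite (LG F) := by
  apply Infinite.of_injective (fun p : F => (⟨∅, p⟩ : LG F))
  intro p q h
  rw [LG.mk.injEq] at h
  exact h.2

/-- Words of length at most `N`. -/
theorem ball_good (N : ℕ) : Good ((tball N).image u) := by
  refine ⟨?_, ?_, ?_⟩
  · exact Finset.mem_image.2 ⟨1, by rw [mem_tball, u_one]; simp, u_one⟩
  · intro c L h
    obtain ⟨x, hx, h⟩ := Finset.mem_image.1 h
    obtain ⟨q, hq, _⟩ := parent x c L h
    refine Finset.mem_image.2 ⟨q, ?_, hq⟩
    rw [mem_tball] at hx ⊢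
    rw [h, List.length_cons] at hx
    rw [hq]
    omega
  · intro L h
    obtain ⟨x, _, h⟩ := Finset.mem_image.1 h
    exact ⟨x, h⟩

/-- The retreat depth of the full ball is large. -/
theorem rd_large (N : ℕ) : N + 1 ≤ retreatDepth SF (⟨tball (N + 1), 1⟩ : LG F) := by
  apply le_retreatDepth SF_gen
  intro d hd
  have hx : (⟨tball (N + 1), 1⟩ : LG F) ∈ Reg (N + 1) :=
    ⟨by rw [mem_tball]; simp [u_one], Finset.Subset.refl _⟩
  obtain ⟨⟨A, p⟩, ⟨A', p'⟩, hy, hy', hadj, hl, _⟩ := exists_exit hd (reg_finite (N + 1)) hx
  -- length of the centre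
  have h1 := lower (tball (N + 1)) 1
  rw [u_one] at h1
  have h1' : (tball (N + 1)).image u ⊆ hull (insert 1 (tball (N + 1))) := by
    intro L hL
    obtain ⟨x, hx, rfl⟩ := Finset.mem_image.1 hL
    exact mem_hull.2 ⟨x, Finset.mem_insert_of_mem hx, List.suffix_rfl⟩
  have h1'' := Finset.card_le_card h1'
  -- the exit
  have hT := (SF_adj.1 hadj).1
  have hp' : p' ∉ tball (N + 1) := by
    intro h
    apply hy'
    refine ⟨h, ?_⟩
    intro x hx
    rcases mem_of_adj one_notMem hadj hx with h2 | rfl | rfl
    · exact hy.2 h2
    · exact hy.1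
    · exact h
  have hlen : (u p).length = N + 1 := by
    rw [mem_tball] at hp'
    have h2 : (u p).length ≤ N + 1 := mem_tball.1 hy.1
    rcases adj_cases hT with ⟨c, hc⟩ | ⟨c, hc⟩
    · rw [hc, List.length_cons] at hp'
      omega
    · rw [hc, List.length_cons] at h2
      omega
  have hc2 : 2 ≤ ((tball (N + 1)).image u).card := by
    have h3 : ({[], [(0, false)]} : Finset (List Lt)) ⊆ (tball (N + 1)).image u := by
      intro L hL
      rw [Finset.mem_insert, Finset.mem_singleton] at hL
      rcases hL with rfl | rfl
      · exact (ball_good _).nil_mem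
      · refine Finset.mem_image.2 ⟨FreeGroup.of 0 ^ 1, ?_, ?_⟩
        · rw [mem_tball, u_pow]
          simp
        · rw [u_pow]
          rfl
    exact (by decide : 2 ≤ ({[], [(0, false)]} : Finset (List Lt)).card).trans
      (Finset.card_le_card h3)
  have h4 := upper A p _ (ball_good (N + 1)) (Finset.mem_image_of_mem _ hy.1)
    (fun x hx => Finset.mem_image_of_mem _ (hy.2 hx)) hc2
  rw [hlen] at h4
  simp only [List.length_nil] at h1
  omega

theorem rd_unbounded : ¬ BoundedRetreatDepth SF := by
  rintro ⟨D, hD⟩
  have h1 := rd_large D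
  have h2 := hD (⟨tball (D + 1), 1⟩ : LG F)
  omega

end Pool.Agent.R649.LampF
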