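import Mathlib
import Pool.Agent.R649.LampF

/-! `Z_2 wr F_2` is one-ended and has no connected spheres. -/

namespace Pool.Agent.R649.LampF

open SimpleGraph Pool.Agent.R649 Pool.Agent.R649.Lamp Pool.Agent.R649.Tree
open scoped Pointwise symmDiff

/-! ### One-endedness -/

theorem conn_walk {z : F} {A : Finset F} (hz : z ∈ A) (p q : F) :
    Conn SF {g | z ∈ g.lamps} (⟨A, p⟩ : LG F) ⟨A, q⟩ := by
  obtain ⟨w⟩ := (cay_connected T_gen).preconnected p q
  induction w with
  | nil => exact Conn.refl hz
  | @cons a b c hadj w ih =>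
    refine (Conn.step (y := (⟨A, b⟩ : LG F)) hz hz (SF_adj.2 ⟨hadj, ?_⟩)).trans ih
    rw [symmDiff_self]
    exact Finset.empty_subset _

theorem mem_toggle {z x : F} {A : Finset F} (hz : z ∈ A) (hx : x ≠ z) : z ∈ A ∆ {x} := by
  rw [Finset.mem_symmDiff]
  left
  exact ⟨hz, by simpa using hx.symm⟩

theorem conn_toggle {z x : F} {A : Finset F} (hz : z ∈ A) (hx : x ≠ z) :
    Conn SF {g | z ∈ g.lamps} (⟨A, x⟩ : LG F) ⟨A ∆ {x}, x⟩ := by
  obtain ⟨c, x', _, hadj⟩ := exists_child x
  have hz' := mem_toggle hz hx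
  refine (Conn.step (y := (⟨A ∆ {x}, x'⟩ : LG F)) hz hz' (SF_adj.2 ⟨hadj, ?_⟩)).trans
    (Conn.step hz' hz' (SF_adj.2 ⟨hadj.symm, ?_⟩))
  · rw [symmDiff_symmDiff_cancel_left]
    simp
  · rw [symmDiff_self]
    exact Finset.empty_subset _

theorem conn_change {z : F} {A : Finset F} (hz : z ∈ A) (p : F) (D : Finset F) (hD : z ∉ D) :
    Conn SF {g | z ∈ g.lamps} (⟨A, p⟩ : LG F) ⟨A ∆ D, p⟩ := by
  induction D using Finset.induction_on with
  | empty => rw [sd_empty]; exact Conn.refl hz
  | insert x D hxD ih =>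
    have h1 := ih (fun h => hD (Finset.mem_insert_of_mem h))
    have hz1 : z ∈ A ∆ D := h1.mem_right
    have hxz : x ≠ z := by
      rintro rfl
      exact hD (Finset.mem_insert_self _ _)
    have e : A ∆ (insert x D) = (A ∆ D) ∆ {x} := by
      rw [symmDiff_assoc]
      congr 1
      ext y
      simp only [Finset.mem_symmDiff, Finset.mem_singleton, Finset.mem_insert]
      by_cases hy : y = x
      · subst hy; simp [hxD]
      · simp [hy]
    rw [e]
    exact ((h1.trans (conn_walk hz1 p x)).trans (conn_toggle hz1 hxz)).trans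
      (conn_walk (mem_toggle hz1 hxz) x p)

theorem conn_far {z : F} {A B : Finset F} (hA : z ∈ A) (hB : z ∈ B) (p q : F) :
    Conn SF {g | z ∈ g.lamps} (⟨A, p⟩ : LG F) ⟨B, q⟩ := by
  have h := conn_change hA p (A ∆ B) (by
    rw [Finset.mem_symmDiff]
    tauto)
  rw [symmDiff_symmDiff_cancel_left] at h
  exact h.trans (conn_walk hB p q)

theorem far_sub {N : ℕ} {z : F} (hz : z ∉ tball N) : {g : LG F | z ∈ g.lamps} ⊆ (Reg N)ᶜ := by
  intro g hg h
  exact hz (h.2 hg)

theorem to_far {N : ℕ} (g : LG F) (hg : g ∈ (Reg N)ᶜ) :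
    ∃ z, z ∉ tball N ∧ ∃ g' : LG F, z ∈ g'.lamps ∧ Conn SF (Reg N)ᶜ g g' := by
  obtain ⟨A, p⟩ := g
  by_cases h : A ⊆ tball N
  · have hp : p ∉ tball N := fun hp => hg ⟨hp, h⟩
    have hpA : p ∉ A := fun h' => hp (h h')
    obtain ⟨c, x', _, hadj⟩ := exists_child p
    have hmem : p ∈ A ∆ {p} := by
      rw [Finset.mem_symmDiff]
      right
      exact ⟨Finset.mem_singleton_self p, hpA⟩
    refine ⟨p, hp, ⟨A ∆ {p}, x'⟩, hmem, Conn.step hg (far_sub hp hmem) (SF_adj.2 ⟨hadj, ?_⟩)⟩
    rw [symmDiff_symmDiff_cancel_left]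
    simp
  · obtain ⟨z, hz, hzN⟩ := Finset.not_subset.1 h
    exact ⟨z, hzN, ⟨A, p⟩, hz, Conn.refl hg⟩

theorem oneEnded : OneEnded SF := by
  apply oneEnded_of
  intro C hC
  obtain ⟨N, hN⟩ : ∃ N : ℕ, ∀ g ∈ C, g ∈ Reg N := by
    have h1 : ∀ g : LG F, ∃ N : ℕ, g ∈ Reg N := by
      intro g
      refine ⟨(insert g.pos g.lamps).sup fun x => (u x).length, ?_, ?_⟩
      · rw [mem_tball]
        exact Finset.le_sup (f := fun x => (u x).length) (Finset.mem_insert_self _ _)
      · intro x hx
        rw [mem_tball]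
        exact Finset.le_sup (f := fun x => (u x).length) (Finset.mem_insert_of_mem hx)
    choose f hf using h1
    obtain ⟨b, hb⟩ := (hC.image f).bddAbove
    refine ⟨b, fun g hg => ?_⟩
    have h2 : f g ≤ b := hb ⟨g, hg, rfl⟩
    have hmono : ∀ x, x ∈ tball (f g) → x ∈ tball b := by
      intro x hx
      rw [mem_tball] at hx ⊢
      omega
    exact ⟨hmono _ (hf g).1, fun x hx => hmono _ ((hf g).2 hx)⟩
  refine ⟨(Reg N)ᶜ, ?_, by rw [compl_compl]; exact reg_finite N, ?_⟩
  · intro g hg hgC
    exact hg (hN g hgC)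
  · intro g hg h hh
    obtain ⟨z, hz, g', hg', h1⟩ := to_far g hg
    obtain ⟨z', hz', h', hh', h2⟩ := to_far h hh
    obtain ⟨A, p⟩ := g'
    obtain ⟨B, q⟩ := h'
    have h3 : Conn SF (Reg N)ᶜ (⟨A, p⟩ : LG F) ⟨{z, z'}, 1⟩ :=
      (conn_far hg' (by simp) p 1).mono (far_sub hz)
    have h4 : Conn SF (Reg N)ᶜ (⟨B, q⟩ : LG F) ⟨{z, z'}, 1⟩ :=
      (conn_far hh' (by simp) q 1).mono (far_sub hz')
    exact (h1.trans h3).trans (h2.trans h4).symm

/-! ### No connected spheres -/

/-- The branch of the tree below the neighbour `a` of the root. -/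
def InA (p : F) : Prop := [((0 : Fin 2), false)] <:+ u p

theorem inA_of_suffix {p q : F} (h : InA p) (hs : u p <:+ u q) : InA q := List.IsSuffix.trans h hs

theorem descendant (m k : ℕ) : ∀ v : F, InA v → (u v).length + k = m →
    ∃ v', InA v' ∧ (u v').length = m ∧ u v <:+ u v' := by
  induction k with
  | zero =>
    intro v hv h
    exact ⟨v, hv, h, List.suffix_rfl⟩
  | succ k ih =>
    intro v hv h
    obtain ⟨c, q, hq, _⟩ := exists_child v
    have hs : u v <:+ u q := by rw [hq]; exact List.suffix_cons _ _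
    obtain ⟨v', h1, h2, h3⟩ := ih q (inA_of_suffix hv hs) (by rw [hq, List.length_cons]; omega)
    exact ⟨v', h1, h2, hs.trans h3⟩

theorem inA_adj {p p' : F} (h : (mulCayley T).Adj p p') (hp' : InA p') : InA p ∨ p = 1 := by
  rcases adj_cases h with ⟨c, hc⟩ | ⟨c, hc⟩
  · unfold InA at hp' ⊢
    rw [hc, List.suffix_cons_iff] at hp'
    rcases hp' with h | h
    · right
      rw [List.cons.injEq] at h
      apply u_inj
      rw [u_one, ← h.2]
    · exact Or.inl h
  · left
    exact inA_of_suffix hp' (by rw [hc]; exact List.suffix_cons _ _)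

/-- The invariant. -/
def Inv (n r : ℕ) (g : LG F) : Prop :=
  (∀ v, InA v → (u v).length = r + 1 → ∃ x ∈ g.lamps, u v <:+ u x) ∧
  (InA g.pos → (u g.pos).length < r + 1) ∧
  (InA g.pos ∨ g.pos = 1 → 2 * (hull (insert g.pos g.lamps)).card ≤ n + r + 2)

theorem inv_step {n r : ℕ} {g g' : LG F} (hg : Inv n r g) (hadj : (mulCayley SF).Adj g g')
    (h1 : n ≤ wordLength SF g') (h2 : wordLength SF g' ≤ n + r) : Inv n r g' := by
  obtain ⟨A, p⟩ := g
  obtain ⟨A', p'⟩ := g'
  obtain ⟨i1, i2, i3⟩ := hg
  simp only at i1 i2 i3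
  have hT := (SF_adj.1 hadj).1
  have hch := (SF_adj.1 hadj).2
  have hull_le : InA p' → (u p').length ≤ r + 1 →
      u p' ∈ hull (insert p A) ∧ hull (insert p' A') ⊆ hull (insert p A) := by
    intro hp' hl
    obtain ⟨v', hv1, hv2, hv3⟩ := descendant (r + 1) (r + 1 - (u p').length) p' hp' (by omega)
    obtain ⟨x, hx, hxs⟩ := i1 v' hv1 hv2
    have hmem : u p' ∈ hull (insert p A) :=
      mem_hull.2 ⟨x, Finset.mem_insert_of_mem hx, hv3.trans hxs⟩
    refine ⟨hmem, ?_⟩
    apply hull_sub (hull_good (Finset.insert_nonempty _ _))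
    intro y hy
    have hself : ∀ y ∈ insert p A, u y ∈ hull (insert p A) :=
      fun y hy => mem_hull.2 ⟨y, hy, List.suffix_rfl⟩
    rcases Finset.mem_insert.1 hy with rfl | hy
    · exact hmem
    · rcases mem_of_adj one_notMem hadj hy with h | rfl | rfl
      · exact hself y (Finset.mem_insert_of_mem h)
      · exact hself _ (Finset.mem_insert_self _ _)
      · exact hmem
  -- the position does not get deep
  have i2' : InA p' → (u p').length < r + 1 := by
    intro hp'
    by_contra hlen
    push Not at hlen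
    have hpp := inA_adj hT hp'
    have hlen' : (u p').length ≤ r + 1 := by
      rcases adj_cases hT with ⟨c, hc⟩ | ⟨c, hc⟩
      · rw [hc, List.length_cons]
        rcases hpp with h | h
        · have := i2 h
          omega
        · rw [h, u_one]
          simp
      · have h3 : InA p := inA_of_suffix hp' (by rw [hc]; exact List.suffix_cons _ _)
        have := i2 h3
        rw [hc, List.length_cons] at this
        omega
    obtain ⟨h3, h4⟩ := hull_le hp' hlen'
    have h5 := i3 hpp
    have hgood := hull_good (Finset.insert_nonempty p A)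
    have hcard : 2 ≤ (hull (insert p A)).card := by
      have h6 : ({[], u p'} : Finset (List Lt)) ⊆ hull (insert p A) := by
        intro L hL
        rw [Finset.mem_insert, Finset.mem_singleton] at hL
        rcases hL with rfl | rfl
        · exact hgood.nil_mem
        · exact h3
      have h7 : ({[], u p'} : Finset (List Lt)).card = 2 := by
        rw [Finset.card_pair]
        intro h
        rw [← h] at hlen
        simp at hlen
      exact h7.symm.le.trans (Finset.card_le_card h6)
    have h8 := upper A' p' (hull (insert p A)) hgood h3 (by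
      intro x hx
      exact h4 (mem_hull.2 ⟨x, Finset.mem_insert_of_mem hx, List.suffix_rfl⟩)) hcard
    omega
  refine ⟨?_, i2', ?_⟩
  · intro v hv hlen
    obtain ⟨x, hx, hxs⟩ := i1 v hv hlen
    by_cases hxA : x ∈ A'
    · exact ⟨x, hxA, hxs⟩
    · exfalso
      have hx2 := hch (Finset.mem_symmDiff.2 (Or.inl ⟨hx, hxA⟩))
      rw [Finset.mem_insert, Finset.mem_singleton] at hx2
      have hl := hxs.length_le
      rcases hx2 with rfl | rfl
      · have := i2 (inA_of_suffix hv hxs)
        omega
      · have := i2' (inA_of_suffix hv hxs)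
        omega
  · rintro (h | h)
    · simp only at h ⊢
      have h3 := (hull_le h (i2' h).le).2
      have h4 := i3 (inA_adj hT h)
      have := Finset.card_le_card h3
      omega
    · simp only at h ⊢
      subst h
      have h3 := lower A' 1
      rw [u_one, List.length_nil] at h3
      omega

open Classical in
/-- The ball of radius `m` in the branch. -/
noncomputable def Kb (m : ℕ) : Finset F := (tball m).filter InA

theorem mem_Kb {m : ℕ} {p : F} : p ∈ Kb m ↔ (u p).length ≤ m ∧ InA p := by
  simp [Kb, mem_tball]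

theorem hull_b_notMem {m i : ℕ} :
    u (FreeGroup.of 1 ^ (i + 1)) ∉ hull (insert (FreeGroup.of 1 ^ i) (Kb m)) := by
  intro h
  obtain ⟨x, hx, hs⟩ := mem_hull.1 h
  rw [u_pow] at hs
  rcases Finset.mem_insert.1 hx with rfl | hx
  · rw [u_pow] at hs
    have := hs.length_le
    simp at this
  · have h2 : InA x := (mem_Kb.1 hx).2
    have h3 : [((1 : Fin 2), false)] <:+ u x := by
      refine List.IsSuffix.trans ?_ hs
      rw [List.replicate_succ']
      exact List.suffix_append _ _
    have h4 := List.suffix_of_suffix_length_le h2 h3 (by simp)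
    have h5 := h4.eq_of_length (by simp)
    simp at h5

theorem hull_b_card (m i : ℕ) : (hull (insert 1 (Kb m))).card + i ≤
    (hull (insert (FreeGroup.of 1 ^ i) (Kb m))).card := by
  induction i with
  | zero => simp
  | succ i ih =>
    have h1 : insert (u (FreeGroup.of 1 ^ (i + 1))) (hull (insert (FreeGroup.of 1 ^ i) (Kb m))) ⊆
        hull (insert (FreeGroup.of 1 ^ (i + 1)) (Kb m)) := by
      intro L hL
      rcases Finset.mem_insert.1 hL with rfl | hL
      · exact mem_hull.2 ⟨_, Finset.mem_insert_self _ _, List.suffix_rfl⟩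
      · obtain ⟨x, hx, hs⟩ := mem_hull.1 hL
        rcases Finset.mem_insert.1 hx with rfl | hx
        · refine mem_hull.2 ⟨_, Finset.mem_insert_self _ _, hs.trans ?_⟩
          rw [u_pow, u_pow, List.replicate_succ]
          exact List.suffix_cons _ _
        · exact mem_hull.2 ⟨x, Finset.mem_insert_of_mem hx, hs⟩
    have h2 := Finset.card_le_card h1
    rw [Finset.card_insert_of_notMem hull_b_notMem] at h2
    omega

theorem spheres_bad (r : ℕ) : ∃ n, ¬ ((mulCayley SF).induce (sphereInf SF n r)).Connected := by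
  obtain ⟨x1, hx1⟩ : ∃ x1 : LG F, x1 = ⟨Kb (r + 1), 1⟩ := ⟨_, rfl⟩
  obtain ⟨n, hn⟩ : ∃ n, n = wordLength SF x1 := ⟨_, rfl⟩
  obtain ⟨x2, hx2⟩ : ∃ x2 : LG F, x2 = ⟨∅, FreeGroup.of 1 ^ n⟩ := ⟨_, rfl⟩
  refine ⟨n, fun hcon => ?_⟩
  have hlow1 := lower (Kb (r + 1)) 1
  rw [u_one, List.length_nil, ← hx1, ← hn] at hlow1
  have ha1 : (FreeGroup.of 0 : F) ^ (r + 1) ∈ Kb (r + 1) := by
    rw [mem_Kb]
    constructor
    · rw [u_pow]; simp
    · unfold InA
      rw [u_pow, List.replicate_succ']
      exact List.suffix_append _ _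
  have hcard2 : 2 ≤ (hull (insert 1 (Kb (r + 1)))).card := by
    have h6 : ({[], u (FreeGroup.of 0 ^ (r + 1))} : Finset (List Lt)) ⊆
        hull (insert 1 (Kb (r + 1))) := by
      intro L hL
      rw [Finset.mem_insert, Finset.mem_singleton] at hL
      rcases hL with rfl | rfl
      · exact (hull_good (Finset.insert_nonempty _ _)).nil_mem
      · exact mem_hull.2 ⟨_, Finset.mem_insert_of_mem ha1, List.suffix_rfl⟩
    have h7 : ({[], u (FreeGroup.of 0 ^ (r + 1))} : Finset (List Lt)).card = 2 := by
      rw [Finset.card_pair]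
      intro h
      rw [u_pow] at h
      have := congrArg List.length h
      simp at this
    exact h7.symm.le.trans (Finset.card_le_card h6)
  have hup1 := upper (Kb (r + 1)) 1 (hull (insert 1 (Kb (r + 1))))
    (hull_good (Finset.insert_nonempty _ _))
    (mem_hull.2 ⟨_, Finset.mem_insert_self _ _, List.suffix_rfl⟩)
    (fun x hx => mem_hull.2 ⟨x, Finset.mem_insert_of_mem hx, List.suffix_rfl⟩) hcard2
  rw [u_one, List.length_nil, ← hx1, ← hn] at hup1
  have hpinj : Function.Injective (fun i : ℕ => (FreeGroup.of 1 : F) ^ i) := by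
    intro i j h
    have := congrArg (fun x => (u x).length) h
    simpa [u_pow] using this
  have hstep : ∀ (A : Finset F) (i : ℕ), (mulCayley SF).Adj
      (⟨A, FreeGroup.of 1 ^ i⟩ : LG F) ⟨A, FreeGroup.of 1 ^ (i + 1)⟩ := by
    intro A i
    refine SF_adj.2 ⟨?_, ?_⟩
    · rw [pow_succ]
      exact cadj_mul (Or.inl (of_mem 1)) (FreeGroup.of_ne_one _)
    · rw [symmDiff_self]
      exact Finset.empty_subset _
  -- `x1` is in the sphere
  have m1 : x1 ∈ sphereInf SF n r := by
    refine ⟨by rw [← hn]; omega, ?_⟩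
    have h := component_infinite_of_ray (S := SF) (n := n)
      (fun i : ℕ => (⟨Kb (r + 1), FreeGroup.of 1 ^ i⟩ : LG F))
      (by
        intro i j h
        rw [LG.mk.injEq] at h
        exact hpinj h.2)
      (by
        intro i
        have h3 := lower (Kb (r + 1)) (FreeGroup.of 1 ^ i)
        have h4 := hull_b_card (r + 1) i
        rw [u_pow, List.length_replicate] at h3
        omega)
      (fun i => hstep _ i)
    rw [hx1]
    simpa using h
  -- `x2` is in the sphere
  have m2 : x2 ∈ sphereInf SF n r := by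
    refine ⟨?_, ?_⟩
    · have hpow : ∀ k : ℕ, (⟨∅, FreeGroup.of 1⟩ : LG F) ^ k = ⟨∅, FreeGroup.of 1 ^ k⟩ := by
        intro k
        induction k with
        | zero => rfl
        | succ k ih =>
          rw [pow_succ, ih, mk_mul, Finset.smul_finset_empty, sd_empty, pow_succ]
      have h := wl_pow SF_gen (s := (⟨∅, FreeGroup.of 1⟩ : LG F))
        (Or.inl ⟨of_mem 1, Finset.empty_subset _⟩) n
      rw [hpow] at h
      rw [hx2]
      exact h.trans (Nat.le_add_right _ _)
    · have h := component_infinite_of_ray (S := SF) (n := n)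
        (fun i : ℕ => (⟨∅, FreeGroup.of 1 ^ (n + i)⟩ : LG F))
        (by
          intro i j h
          rw [LG.mk.injEq] at h
          have := hpinj h.2
          omega)
        (by
          intro i
          have h3 := lower ∅ (FreeGroup.of 1 ^ (n + i))
          have h4 : ∀ k : ℕ, k + 1 ≤ (hull (insert (FreeGroup.of 1 ^ k) ∅)).card := by
            intro k
            have h5 : (Finset.range (k + 1)).image (fun j => List.replicate j ((1 : Fin 2), false))
                ⊆ hull (insert (FreeGroup.of 1 ^ k) ∅) := by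
              intro L hL
              obtain ⟨j, hj, rfl⟩ := Finset.mem_image.1 hL
              rw [Finset.mem_range] at hj
              refine mem_hull.2 ⟨_, Finset.mem_insert_self _ _, ?_⟩
              rw [u_pow]
              refine ⟨List.replicate (k - j) (1, false), ?_⟩
              rw [List.replicate_append_replicate]
              congr 1
              omega
            have h6 := Finset.card_le_card h5
            rw [Finset.card_image_of_injective, Finset.card_range] at h6
            · exact h6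
            · intro i j h
              have := congrArg List.length h
              simpa using this
          have h7 := h4 (n + i)
          rw [u_pow, List.length_replicate] at h3
          omega)
        (fun i => hstep _ (n + i))
      rw [hx2]
      simpa using h
  have hconn := conn_of_connected hcon m1 m2
  have hJ := hconn.invariant (Inv n r) (by
    intro a b _ hb hadj ha
    refine inv_step ha hadj ?_ hb.1
    obtain ⟨y, hy⟩ := hb.2.nonempty
    exact hy.1) (by
    rw [hx1]
    refine ⟨?_, ?_, ?_⟩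
    · intro v hv hlen
      exact ⟨v, mem_Kb.2 ⟨hlen.le, hv⟩, List.suffix_rfl⟩
    · intro h
      have h' : InA 1 := h
      unfold InA at h'
      rw [u_one] at h'
      have := h'.length_le
      simp at this
    · intro _
      simp only
      omega)
  rw [hx2] at hJ
  obtain ⟨x, hx, _⟩ := hJ.1 (FreeGroup.of 0 ^ (r + 1)) (mem_Kb.1 ha1).2 (by rw [u_pow]; simp)
  exact absurd hx (Finset.notMem_empty x)

theorem no_spheres : ¬ ConnectedSpheres SF := by
  rintro ⟨r, hr⟩
  obtain ⟨n, hn⟩ := spheres_bad r
  exact hn (hr n)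

end Pool.Agent.R649.LampF
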