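import Mathlib
import Pool.Agent.R649.Conn

/-! `ℤ²` with the standard generators: retreat depth `0`, connected spheres, one end. -/

namespace Pool.Agent.R649.ZSq

open SimpleGraph Pool.Agent.R649

/-- The group `ℤ²`, written multiplicatively. -/
abbrev Q := Multiplicative (ℤ × ℤ)

/-- The element with coordinates `x`, `y`. -/
def el (x y : ℤ) : Q := Multiplicative.ofAdd (x, y)

/-- The standard generators. -/
def gensQ : Set Q := {el 1 0, el 0 1}

theorem el_mul (x y x' y' : ℤ) : el x y * el x' y' = el (x + x') (y + y') := rfl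

theorem el_inv (x y : ℤ) : (el x y)⁻¹ = el (-x) (-y) := rfl

theorem el_one : el 0 0 = 1 := rfl

theorem el_inj {x y x' y' : ℤ} (h : el x y = el x' y') : x = x' ∧ y = y' := by
  have h2 := congrArg Multiplicative.toAdd h
  have h3 : (x, y) = (x', y') := h2
  simpa using h3

theorem exists_el (g : Q) : ∃ x y, g = el x y := ⟨(Multiplicative.toAdd g).1,
  (Multiplicative.toAdd g).2, rfl⟩

theorem el_pow (x y : ℤ) (k : ℕ) : el x y ^ k = el (k * x) (k * y) := by
  induction k with
  | zero => simp [el_one]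
  | succ k ih => rw [pow_succ, ih, el_mul]; push_cast; congr 1 <;> ring

theorem gensQ_gen : Subgroup.closure gensQ = ⊤ := by
  rw [eq_top_iff]
  rintro g -
  obtain ⟨x, y, rfl⟩ := exists_el g
  have h1 : el 1 0 ∈ Subgroup.closure gensQ := Subgroup.subset_closure (Or.inl rfl)
  have h2 : el 0 1 ∈ Subgroup.closure gensQ := Subgroup.subset_closure (Or.inr rfl)
  have hz1 : ∀ k : ℤ, el 1 0 ^ k = el k 0 := by
    intro k
    obtain ⟨n, rfl | rfl⟩ := k.eq_nat_or_neg
    · rw [zpow_natCast, el_pow]; simp
    · rw [zpow_neg, zpow_natCast, el_pow, el_inv]; simp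
  have hz2 : ∀ k : ℤ, el 0 1 ^ k = el 0 k := by
    intro k
    obtain ⟨n, rfl | rfl⟩ := k.eq_nat_or_neg
    · rw [zpow_natCast, el_pow]; simp
    · rw [zpow_neg, zpow_natCast, el_pow, el_inv]; simp
  have e : el x y = el 1 0 ^ x * el 0 1 ^ y := by
    rw [hz1, hz2, el_mul]; simp
  rw [e]
  exact mul_mem (zpow_mem h1 x) (zpow_mem h2 y)

theorem wl_el (x y : ℤ) : wordLength gensQ (el x y) = x.natAbs + y.natAbs := by
  apply le_antisymm
  · have hp1 : ∀ z : ℤ, wordLength gensQ (el z 0) ≤ z.natAbs := by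
      intro z
      have h := wl_pow gensQ_gen (s := el 1 0) (Or.inl (Or.inl rfl)) z.natAbs
      rw [el_pow] at h
      simp only [mul_one, mul_zero] at h
      rcases le_total 0 z with h0 | h0
      · rw [Int.natAbs_of_nonneg h0] at h
        exact h
      · have e : el z 0 = (el ((z.natAbs : ℕ) : ℤ) 0)⁻¹ := by
          rw [el_inv, neg_zero]
          congr 1
          omega
        unfold wordLength
        rw [e, wl_inv]
        exact h
    have hp2 : ∀ z : ℤ, wordLength gensQ (el 0 z) ≤ z.natAbs := by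
      intro z
      have h := wl_pow gensQ_gen (s := el 0 1) (Or.inl (Or.inr rfl)) z.natAbs
      rw [el_pow] at h
      simp only [mul_one, mul_zero] at h
      rcases le_total 0 z with h0 | h0
      · rw [Int.natAbs_of_nonneg h0] at h
        exact h
      · have e : el 0 z = (el 0 ((z.natAbs : ℕ) : ℤ))⁻¹ := by
          rw [el_inv, neg_zero]
          congr 1
          omega
        unfold wordLength
        rw [e, wl_inv]
        exact h
    have h := wl_mul gensQ_gen (el x 0) (el 0 y)
    rw [el_mul, add_zero, zero_add] at h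
    have h1 := hp1 x
    have h2 := hp2 y
    unfold wordLength at *
    omega
  · have key := wl_rec gensQ_gen
      (P := fun n g => (Multiplicative.toAdd g).1.natAbs + (Multiplicative.toAdd g).2.natAbs ≤ n)
      (by simp) (by
        intro n g s hg hs
        obtain ⟨x, y, rfl⟩ := exists_el g
        have hg' : x.natAbs + y.natAbs ≤ n := hg
        rcases hs with (rfl | hs) | (hs | hs)
        · rw [el_mul]
          show (x + 1).natAbs + (y + 0).natAbs ≤ n + 1
          omega
        · rw [Set.mem_singleton_iff] at hs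
          subst hs
          rw [el_mul]
          show (x + 0).natAbs + (y + 1).natAbs ≤ n + 1
          omega
        · obtain rfl : s = el (-1) 0 := by rw [← inv_inv s, hs]; rfl
          rw [el_mul]
          show (x + -1).natAbs + (y + 0).natAbs ≤ n + 1
          omega
        · rw [Set.mem_singleton_iff] at hs
          obtain rfl : s = el 0 (-1) := by rw [← inv_inv s, hs]; rfl
          rw [el_mul]
          show (x + 0).natAbs + (y + -1).natAbs ≤ n + 1
          omega) (el x y)
    exact key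

/-- The annulus. -/
def ann (n M : ℕ) : Set Q := {g | n ≤ wordLength gensQ g ∧ wordLength gensQ g ≤ M}

theorem conn_step {C : Set Q} {x y x' y' : ℤ} (h1 : el x y ∈ C) (h2 : el x' y' ∈ C)
    (h : (x' = x + 1 ∧ y' = y) ∨ (x' = x - 1 ∧ y' = y) ∨ (x' = x ∧ y' = y + 1) ∨
      (x' = x ∧ y' = y - 1)) : Conn gensQ C (el x y) (el x' y') := by
  rcases h with ⟨rfl, rfl⟩ | ⟨rfl, rfl⟩ | ⟨rfl, rfl⟩ | ⟨rfl, rfl⟩
  · have e : el (x + 1) y' = el x y' * el 1 0 := by rw [el_mul, add_zero]
    rw [e] at h2 ⊢
    exact Conn.gen h1 h2 (Or.inl (Or.inl rfl))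
  · have e : el (x - 1) y' = el x y' * el (-1) 0 := by rw [el_mul, add_zero]; rfl
    rw [e] at h2 ⊢
    exact Conn.gen h1 h2 (Or.inr (Or.inl rfl))
  · have e : el x' (y + 1) = el x' y * el 0 1 := by rw [el_mul, add_zero]
    rw [e] at h2 ⊢
    exact Conn.gen h1 h2 (Or.inl (Or.inr rfl))
  · have e : el x' (y - 1) = el x' y * el 0 (-1) := by rw [el_mul, add_zero]; rfl
    rw [e] at h2 ⊢
    exact Conn.gen h1 h2 (Or.inr (Or.inr rfl))

theorem descend (n M : ℕ) : ∀ (k : ℕ) (x y : ℤ), x.natAbs + y.natAbs = n + k → n + k ≤ M →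
    ∃ x' y' : ℤ, x'.natAbs + y'.natAbs = n ∧ Conn gensQ (ann n M) (el x y) (el x' y') := by
  intro k
  induction k with
  | zero =>
    intro x y h hM
    refine ⟨x, y, h, Conn.refl ?_⟩
    constructor <;> rw [wl_el] <;> omega
  | succ k ih =>
    intro x y h hM
    have hmem : el x y ∈ ann n M := by constructor <;> rw [wl_el] <;> omega
    by_cases hx : x = 0
    · rcases lt_or_ge y 0 with hy | hy
      · obtain ⟨x', y', h1, h2⟩ := ih x (y + 1) (by omega) (by omega)
        exact ⟨x', y', h1, (conn_step hmem h2.mem_left (by omega)).trans h2⟩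
      · obtain ⟨x', y', h1, h2⟩ := ih x (y - 1) (by omega) (by omega)
        exact ⟨x', y', h1, (conn_step hmem h2.mem_left (by omega)).trans h2⟩
    · rcases lt_or_ge x 0 with hx' | hx'
      · obtain ⟨x', y', h1, h2⟩ := ih (x + 1) y (by omega) (by omega)
        exact ⟨x', y', h1, (conn_step hmem h2.mem_left (by omega)).trans h2⟩
      · obtain ⟨x', y', h1, h2⟩ := ih (x - 1) y (by omega) (by omega)
        exact ⟨x', y', h1, (conn_step hmem h2.mem_left (by omega)).trans h2⟩

theorem around (n M : ℕ) (hM : n + 1 ≤ M) (a b : ℤ) (ha : a = 1 ∨ a = -1) (hb : b = 1 ∨ b = -1) :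
    ∀ (j i : ℕ), i + j = n →
      Conn gensQ (ann n M) (el (a * i) (b * j)) (el (a * n) 0) := by
  have hl : ∀ i j : ℕ, wordLength gensQ (el (a * i) (b * j)) = i + j := by
    intro i j
    rw [wl_el]
    rcases ha with rfl | rfl <;> rcases hb with rfl | rfl <;> omega
  intro j
  induction j with
  | zero =>
    intro i h
    obtain rfl : i = n := by omega
    simp only [Nat.cast_zero, mul_zero]
    apply Conn.refl
    have := hl i 0
    simp only [Nat.cast_zero, mul_zero] at this
    constructor <;> omega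
  | succ j ih =>
    intro i h
    have h1 := ih (i + 1) (by omega)
    have m1 : el (a * i) (b * (j + 1 : ℕ)) ∈ ann n M := by
      constructor <;> rw [hl] <;> omega
    have m2 : el (a * (i + 1 : ℕ)) (b * (j + 1 : ℕ)) ∈ ann n M := by
      constructor <;> rw [hl] <;> omega
    have m3 : el (a * (i + 1 : ℕ)) (b * (j : ℕ)) ∈ ann n M := by
      constructor <;> rw [hl] <;> omega
    refine ((conn_step m1 m2 ?_).trans (conn_step m2 m3 ?_)).trans h1
    · rcases ha with rfl | rfl <;> push_cast <;> omega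
    · rcases hb with rfl | rfl <;> push_cast <;> omega

theorem conn_base (n M : ℕ) (hM : n + 1 ≤ M) (g : Q) (hg : g ∈ ann n M) :
    Conn gensQ (ann n M) g (el n 0) := by
  obtain ⟨x, y, rfl⟩ := exists_el g
  obtain ⟨h1, h2⟩ := hg
  rw [wl_el] at h1 h2
  obtain ⟨x', y', h3, h4⟩ := descend n M (x.natAbs + y.natAbs - n) x y (by omega) (by omega)
  refine h4.trans ?_
  have hsgn : ∀ z : ℤ, ∃ a : ℤ, (a = 1 ∨ a = -1) ∧ z = a * (z.natAbs : ℕ) := by
    intro z
    rcases le_total 0 z with h | h
    · exact ⟨1, Or.inl rfl, by omega⟩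
    · exact ⟨-1, Or.inr rfl, by omega⟩
  obtain ⟨a, ha, hax⟩ := hsgn x'
  obtain ⟨b, hb, hby⟩ := hsgn y'
  have h5 := around n M hM a b ha hb y'.natAbs x'.natAbs h3
  rw [← hax, ← hby] at h5
  refine h5.trans ?_
  have h6 : ∀ a : ℤ, (a = 1 ∨ a = -1) →
      Conn gensQ (ann n M) (el 0 n) (el (a * n) 0) := by
    intro a ha
    have := around n M hM a 1 ha (Or.inl rfl) n 0 (by omega)
    simpa using this
  have h7 := (h6 a ha).symm.trans (h6 1 (Or.inl rfl))
  simpa using h7

theorem ann_sub (n M : ℕ) : ann n M ⊆ outside gensQ n := fun _ h => h.1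

theorem conn_outside (n : ℕ) (g : Q) (hg : g ∈ outside gensQ n) :
    Conn gensQ (outside gensQ n) g (el n 0) :=
  (conn_base n (max (n + 1) (wordLength gensQ g)) (le_max_left _ _) g
    ⟨hg, le_max_right _ _⟩).mono (ann_sub _ _)

theorem ray_infinite (n : ℕ) : (outside gensQ n).Infinite := by
  apply Set.Infinite.mono (s := Set.range fun i : ℕ => el ((n : ℤ) + i) 0)
  · rintro _ ⟨i, rfl⟩
    show n ≤ wordLength gensQ (el ((n : ℤ) + i) 0)
    rw [wl_el]
    omega
  · apply Set.infinite_range_of_injective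
    intro i j h
    have := (el_inj h).1
    omega

theorem component_infinite (n : ℕ) (g : Q) (hg : g ∈ outside gensQ n) :
    (component gensQ n g).Infinite := by
  apply (ray_infinite n).mono
  intro h hh
  exact (conn_outside n g hg).trans (conn_outside n h hh).symm

theorem rd_zero (g : Q) : retreatDepth gensQ g = 0 := by
  unfold retreatDepth
  apply Nat.eq_zero_of_le_zero
  apply Nat.sInf_le
  show (component gensQ (wordLength gensQ g - 0) g).Infinite
  apply component_infinite
  simp [outside]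

theorem boundedQ : BoundedRetreatDepth gensQ := ⟨0, fun g => (rd_zero g).le⟩

theorem sphere_eq (n r : ℕ) : sphereInf gensQ n r = ann n (n + r) := by
  ext g
  constructor
  · rintro ⟨h1, h2⟩
    obtain ⟨h, hh⟩ := h2.nonempty
    exact ⟨hh.1, h1⟩
  · rintro ⟨h1, h2⟩
    exact ⟨h2, component_infinite n g h1⟩

theorem spheresQ : ConnectedSpheres gensQ := by
  apply connectedSpheres_of 1
  intro n
  rw [sphere_eq]
  refine ⟨⟨el n 0, ?_⟩, ?_⟩
  · constructor <;> rw [wl_el] <;> omega
  · intro x hx y hy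
    exact (conn_base n _ le_rfl x hx).trans (conn_base n _ le_rfl y hy).symm

instance : Infinite Q := by
  have : (Set.univ : Set Q).Infinite := (ray_infinite 0).mono (Set.subset_univ _)
  exact Set.infinite_univ_iff.1 this

theorem ball_finite (n : ℕ) : (outside gensQ n)ᶜ.Finite := by
  apply Set.Finite.subset (Set.Finite.image (fun p : ℤ × ℤ => el p.1 p.2)
    ((Set.finite_Icc (-(n : ℤ)) n).prod (Set.finite_Icc (-(n : ℤ)) n)))
  intro g hg
  obtain ⟨x, y, rfl⟩ := exists_el g
  have : wordLength gensQ (el x y) < n := by simpa [outside] using hg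
  rw [wl_el] at this
  refine ⟨(x, y), ⟨?_, ?_⟩, rfl⟩
  · simp only [Set.mem_Icc]; omega
  · simp only [Set.mem_Icc]; omega

theorem oneEndedQ : OneEnded gensQ := by
  apply oneEnded_of
  intro F hF
  obtain ⟨n, hn⟩ : ∃ n : ℕ, ∀ g ∈ F, wordLength gensQ g < n := by
    obtain ⟨b, hb⟩ := (hF.image (wordLength gensQ)).bddAbove
    exact ⟨b + 1, fun g hg => Nat.lt_succ_of_le (hb ⟨g, hg, rfl⟩)⟩
  refine ⟨outside gensQ n, ?_, ball_finite n, ?_⟩
  · intro g hg hgF
    exact absurd (hn g hgF) (not_lt.2 hg)
  · intro x hx y hy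
    exact (conn_outside n x hx).trans (conn_outside n y hy).symm

end Pool.Agent.R649.ZSq
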