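import Mathlib
import Pool.Agent.R649.LampG
import Pool.Agent.R649.ZSq

/-! The quotient map from `Z_2 wr F_2` to `ℤ²`. -/

namespace Pool.Agent.R649.LampF

open SimpleGraph Pool.Agent.R649 Pool.Agent.R649.Lamp Pool.Agent.R649.Tree Pool.Agent.R649.ZSq

/-- The quotient map. -/
def quo : LG F →* Q := (FreeGroup.lift ![el 1 0, el 0 1]).comp posHom

theorem quo_mk (A : Finset F) (p : F) :
    quo (⟨A, p⟩ : LG F) = FreeGroup.lift ![el 1 0, el 0 1] p := rfl

theorem quo_image : quo '' SF = gensQ := by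
  ext x
  constructor
  · rintro ⟨⟨A, p⟩, ⟨hp, _⟩, rfl⟩
    rw [quo_mk]
    rcases hp with h | h
    · left
      simp only at h
      rw [h]
      simp
    · right
      rw [Set.mem_singleton_iff] at h
      simp only at h
      rw [h]
      simp
  · rintro (rfl | h)
    · exact ⟨⟨∅, FreeGroup.of 0⟩, ⟨of_mem 0, Finset.empty_subset _⟩, by rw [quo_mk]; simp⟩
    · rw [Set.mem_singleton_iff] at h
      subst h
      exact ⟨⟨∅, FreeGroup.of 1⟩, ⟨of_mem 1, Finset.empty_subset _⟩, by rw [quo_mk]; simp⟩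

theorem quo_surj : Function.Surjective quo := by
  rw [← MonoidHom.range_eq_top, eq_top_iff, ← gensQ_gen, Subgroup.closure_le, ← quo_image]
  rintro _ ⟨x, _, rfl⟩
  exact ⟨x, rfl⟩

theorem SF_finite : (SF : Set (LG F)).Finite := by
  have h : (SF : Set (LG F)) ⊆ ⋃ p ∈ T, (fun A : Finset F => (⟨A, p⟩ : LG F)) ''
      ((({1, p} : Finset F).powerset : Finset (Finset F)) : Set (Finset F)) := by
    rintro ⟨A, p⟩ ⟨hp, hA⟩
    simp only [Set.mem_iUnion]
    exact ⟨p, hp, A, Finset.mem_coe.2 (Finset.mem_powerset.2 hA), rfl⟩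
  refine (Set.Finite.biUnion ?_ fun p _ => Set.Finite.image _ (Finset.finite_toSet _)).subset h
  exact (Set.finite_singleton _).insert _

end Pool.Agent.R649.LampF
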